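import Mathlib

/-!
# Basic facts on infinite matroids used for MP_d197f9_co
-/

namespace Pool.Hhelper49.Kappa

open Set Cardinal Matroid

universe u

variable {α : Type u} {M : Matroid α}

/-- If `k ≠ x` lie in a cocircuit `D` then some circuit meets `D` exactly in `{k, x}`. -/
lemma exists_isCircuit_inter_eq_pair {D : Set α} (hD : M.IsCocircuit D) {k x : α}
    (hk : k ∈ D) (hx : x ∈ D) (hkx : k ≠ x) : ∃ C, M.IsCircuit C ∧ C ∩ D = {k, x} := by
  have hDE : D ⊆ M.E := hD.subset_ground
  have hmin := (Matroid.isCocircuit_iff_minimal_compl_nonspanning (M := M) (K := D)).1 hD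
  have hspan : M.Spanning (M.E \ (D \ {k})) := by
    by_contra h
    have := hmin.eq_of_subset h sdiff_subset
    have hk' : k ∈ D \ {k} := by rw [this]; exact hk
    exact hk'.2 rfl
  have hins : M.E \ (D \ {k}) = insert k (M.E \ D) := by
    ext y
    simp only [mem_sdiff, mem_singleton_iff, mem_insert_iff]
    constructor
    · rintro ⟨hy, h⟩
      by_cases hyk : y = k
      · exact Or.inl hyk
      · exact Or.inr ⟨hy, fun hyD => h ⟨hyD, hyk⟩⟩
    · rintro (rfl | ⟨hy, hyD⟩)
      · exact ⟨hDE hk, fun h => h.2 rfl⟩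
      · exact ⟨hy, fun h => hyD h.1⟩
  rw [hins] at hspan
  have hxcl : x ∈ M.closure (insert k (M.E \ D)) := by
    rw [hspan.closure_eq]; exact hDE hx
  have hxn : x ∉ insert k (M.E \ D) := by
    rintro (h | h)
    · exact hkx h.symm
    · exact h.2 hx
  obtain ⟨C, hCsub, hC, hxC⟩ := exists_isCircuit_of_mem_closure hxcl hxn
  refine ⟨C, hC, ?_⟩
  have hsub : C ∩ D ⊆ {k, x} := by
    rintro y ⟨hyC, hyD⟩
    rcases hCsub hyC with h | h | h
    · right; exact h
    · left; exact h
    · exact absurd hyD h.2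
  have hkC : k ∈ C := by
    by_contra hkC
    refine hC.inter_isCocircuit_ne_singleton hD (e := x) ?_
    apply Subset.antisymm
    · intro y hy
      rcases hsub hy with h | h
      · exact absurd (h ▸ hy.1) hkC
      · exact h
    · rintro y rfl
      exact ⟨hxC, hx⟩
  apply Subset.antisymm hsub
  rintro y (rfl | rfl)
  · exact ⟨hkC, hk⟩
  · exact ⟨hxC, hx⟩

/-- If `I₀ ∪ I₁` is independent (disjoint union), and `J ⊆ cl I₀` is independent,
then `J ∪ I₁` is independent. -/
lemma indep_union_of_subset_closure {I₀ I₁ J : Set α} (h : M.Indep (I₀ ∪ I₁))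
    (hdisj : Disjoint I₀ I₁) (hJ : M.Indep J) (hJI : J ⊆ M.closure I₀) :
    M.Indep (J ∪ I₁) := by
  have hI₀ : M.Indep I₀ := h.subset subset_union_left
  have hI₁ : M.Indep I₁ := h.subset subset_union_right
  obtain ⟨J', hJ', hJJ'⟩ := hJ.subset_isBasis_of_subset hJI
  have hcl : M.closure J' = M.closure I₀ := by
    rw [hJ'.closure_eq_closure, closure_closure]
  have key : M.Indep (J' ∪ I₁) := by
    rw [hJ'.indep.union_indep_iff_forall_notMem_closure_right hI₁]
    rintro e ⟨he, _⟩ hmem
    rw [closure_union_congr_left hcl] at hmem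
    have heI₀ : e ∉ I₀ := fun h' => hdisj.le_bot ⟨h', he⟩
    refine h.notMem_closure_sdiff_of_mem (Or.inr he) ?_
    refine M.closure_subset_closure ?_ hmem
    rintro y (hy | hy)
    · exact ⟨Or.inl hy, fun hye => heI₀ (hye ▸ hy)⟩
    · exact ⟨Or.inr hy.1, hy.2⟩
  exact key.subset (union_subset_union_left _ hJJ')

/-- The direct-sum lemma. -/
lemma directSum_aux {B K V W S : Set α} {p : α} (hB : M.Indep B)
    (hKE : K ⊆ M.E) (hSE : S ⊆ M.E)
    (hK : K ⊆ M.closure (B ∩ K)) (hV : V ⊆ M.closure (B ∩ (K ∪ V)))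
    (hW : W ⊆ M.closure (B ∩ (K ∪ W))) (hWd : Disjoint W (K ∪ V))
    (hS : S ⊆ V) (hp : p ∈ V) (hpcl : p ∈ M.closure (S ∪ K ∪ W)) :
    p ∈ M.closure (S ∪ K) := by
  by_contra hpn
  have hSK : S ∪ K ⊆ M.E := union_subset hSE hKE
  have hBK : M.Indep (B ∩ K) := hB.subset inter_subset_left
  obtain ⟨I, hI, hBI⟩ := hBK.subset_isBasis_of_subset
    (show B ∩ K ⊆ S ∪ K from inter_subset_right.trans subset_union_right) hSK
  have hIcl : M.closure I = M.closure (S ∪ K) := hI.closure_eq_closure
  have hpE : p ∈ M.E := mem_ground_of_mem_closure hpcl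
  have hpI : p ∉ M.closure I := by rw [hIcl]; exact hpn
  have hpI' : p ∉ I := fun h => hpI (M.subset_closure I hI.indep.subset_ground h)
  have hins : M.Indep (insert p I) := by
    rw [hI.indep.insert_indep_iff]
    exact Or.inl ⟨hpE, hpI⟩
  have hins_sub : insert p I ⊆ M.closure (B ∩ (K ∪ V)) := by
    rintro y (rfl | hy)
    · exact hV hp
    · rcases hI.subset hy with h | h
      · exact hV (hS h)
      · exact M.closure_subset_closure (inter_subset_inter_right _ subset_union_left) (hK h)
  have hIndep : M.Indep (insert p I ∪ (B ∩ W)) := by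
    refine indep_union_of_subset_closure (I₀ := B ∩ (K ∪ V)) ?_ ?_ hins hins_sub
    · exact hB.subset (union_subset inter_subset_left inter_subset_left)
    · rw [disjoint_left]
      rintro y ⟨_, hy⟩ ⟨_, hyW⟩
      exact hWd.le_bot ⟨hyW, hy⟩
  have hpW : p ∉ W := fun h => hWd.le_bot ⟨h, Or.inr hp⟩
  have hnot : p ∉ M.closure (I ∪ (B ∩ W)) := by
    intro hmem
    refine hIndep.notMem_closure_sdiff_of_mem (Or.inl (mem_insert p I)) ?_
    refine M.closure_subset_closure ?_ hmem
    rintro y (hy | hy)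
    · exact ⟨Or.inl (Or.inr hy), fun h => hpI' (h ▸ hy)⟩
    · exact ⟨Or.inr hy, fun h => hpW (h ▸ hy.2)⟩
  apply hnot
  have h1 : S ∪ K ⊆ M.closure (I ∪ (B ∩ W)) := by
    intro y hy
    have : y ∈ M.closure I := by
      rw [hIcl]; exact M.subset_closure _ hSK hy
    exact M.closure_subset_closure subset_union_left this
  have h2 : W ⊆ M.closure (I ∪ (B ∩ W)) := by
    intro y hy
    refine M.closure_subset_closure ?_ (hW hy)
    rintro z ⟨hzB, hz | hz⟩
    · exact Or.inl (hBI ⟨hzB, hz⟩)
    · exact Or.inr ⟨hzB, hz⟩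
  have h3 : M.closure (S ∪ K ∪ W) ⊆ M.closure (I ∪ (B ∩ W)) :=
    closure_subset_closure_of_subset_closure (union_subset h1 h2)
  exact h3 hpcl

/-- Cardinality of the fundamental circuit. -/
lemma mk_fundCircuit_le {κ : Cardinal.{u}} (hκ : 1 ≤ κ)
    (hC : ∀ C, M.IsCircuit C → #C ≤ κ) {I : Set α} (hI : M.Indep I) {e : α}
    (he : e ∈ M.closure I) : #(M.fundCircuit e I) ≤ κ := by
  by_cases heI : e ∈ I
  · rw [fundCircuit_eq_of_mem heI]; simpa using hκ
  · exact hC _ (hI.fundCircuit_isCircuit he heI)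

/-- The counting lemma: if all circuits have size at most `κ`, `T` is independent over `A`
and `T ⊆ cl (K ∪ A)`, then `#T ≤ max #K κ`. -/
lemma counting {κ : Cardinal.{u}} (hκ : ℵ₀ ≤ κ) (hC : ∀ C, M.IsCircuit C → #C ≤ κ)
    {T A K : Set α} (hA : A ⊆ M.E) (hK : K ⊆ M.E)
    (hind : ∀ t ∈ T, t ∉ M.closure (A ∪ (T \ {t})))
    (hcl : T ⊆ M.closure (K ∪ A)) : #T ≤ max #K κ := by
  have hT : T ⊆ M.E := fun t ht => mem_ground_of_mem_closure (hcl ht)
  obtain ⟨I, hI⟩ := M.exists_isBasis A
  have hIcl : M.closure I = M.closure A := hI.closure_eq_closure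
  have hTind : M.Indep T := by
    rw [indep_iff_forall_notMem_closure_sdiff hT]
    intro t ht hmem
    exact hind t ht (M.closure_subset_closure subset_union_right hmem)
  have hIT : M.Indep (I ∪ T) := by
    rw [hI.indep.union_indep_iff_forall_notMem_closure_right hTind]
    rintro t ⟨ht, _⟩ hmem
    rw [closure_union_congr_left hIcl] at hmem
    exact hind t ht hmem
  have hITK : I ∪ T ∪ K ⊆ M.E := union_subset hIT.subset_ground hK
  obtain ⟨J, hJ, hITJ⟩ := hIT.subset_isBasis_of_subset
    (show I ∪ T ⊆ I ∪ T ∪ K from subset_union_left) hITK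
  have hsub : T ⊆ K ∪ ⋃ k ∈ K, M.fundCircuit k J := by
    intro t ht
    by_contra hcon
    simp only [mem_union, mem_iUnion, not_or, not_exists] at hcon
    obtain ⟨htK, htf⟩ := hcon
    have htJ : t ∈ J := hITJ (Or.inr ht)
    have htI : t ∉ I := by
      intro htI
      refine hind t ht (M.closure_subset_closure subset_union_left ?_)
      rw [← hIcl]
      exact M.subset_closure I hI.indep.subset_ground htI
    have hKsub : K ⊆ M.closure (J \ {t}) := by
      intro k hk
      by_cases hkJ : k ∈ J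
      · have hkt : k ≠ t := fun h => htK (h ▸ hk)
        exact M.subset_closure _ (sdiff_subset.trans hJ.indep.subset_ground) ⟨hkJ, hkt⟩
      · have hkcl : k ∈ M.closure J := hJ.subset_closure (Or.inr hk)
        have hcirc := hJ.indep.fundCircuit_isCircuit hkcl hkJ
        have hmem := hcirc.mem_closure_sdiff_singleton_of_mem (M.mem_fundCircuit k J)
        refine M.closure_subset_closure ?_ hmem
        rintro y ⟨hy, hyk⟩
        rcases M.fundCircuit_subset_insert k J hy with h | h
        · exact absurd h hyk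
        · exact ⟨h, fun hyt => htf k hk (hyt ▸ hy)⟩
    have hAsub : A ⊆ M.closure (J \ {t}) := by
      intro a ha
      have : a ∈ M.closure I := by rw [hIcl]; exact M.subset_closure A hA ha
      refine M.closure_subset_closure ?_ this
      intro y hy
      exact ⟨hITJ (Or.inl hy), fun h => htI (h ▸ hy)⟩
    have := closure_subset_closure_of_subset_closure (union_subset hKsub hAsub) (hcl ht)
    exact hJ.indep.notMem_closure_sdiff_of_mem htJ this
  have h1 : 1 ≤ κ := one_le_aleph0.trans hκ
  calc #T ≤ #(K ∪ ⋃ k ∈ K, M.fundCircuit k J : Set α) := mk_le_mk_of_subset hsub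
    _ ≤ #K + #(⋃ k ∈ K, M.fundCircuit k J : Set α) := mk_union_le _ _
    _ ≤ #K + #K * κ := by
        gcongr
        refine (mk_biUnion_le _ _).trans ?_
        gcongr
        apply ciSup_le'
        rintro ⟨k, hk⟩
        exact mk_fundCircuit_le h1 hC hJ.indep (hJ.subset_closure (Or.inr hk))
    _ ≤ max #K κ := by
        rcases le_total #K κ with h | h
        · rw [max_eq_right h]
          calc #K + #K * κ ≤ κ + κ * κ := by gcongr
            _ = κ := by rw [mul_eq_self hκ, add_eq_self hκ]
        · rw [max_eq_left h]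
          have hK' : ℵ₀ ≤ #K := hκ.trans h
          calc #K + #K * κ ≤ #K + #K * #K := by gcongr
            _ = #K := by rw [mul_eq_self hK', add_eq_self hK']

end Pool.Hhelper49.Kappa
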