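import Mathlib
import Pool.Agent.Hhelper49.Kappa.Basic

/-!
# The two contradiction lemmas used for MP_d197f9_co
-/

namespace Pool.Hhelper49.Kappa

open Set Cardinal Matroid

universe u

variable {α : Type u} {M : Matroid α}

lemma final_regular {ι : Type u} [LinearOrder ι] [WellFoundedLT ι]
    {κ₀ : Cardinal.{u}} (hκ₀ : ℵ₀ ≤ κ₀) (hC : ∀ C, M.IsCircuit C → #C ≤ κ₀)
    {B K : Set α} (hB : M.Indep B) (hKE : K ⊆ M.E)
    (V T D : ι → Set α) (x : ι → α)
    (hK : K ⊆ M.closure (B ∩ K)) (hV : ∀ i, V i ⊆ M.closure (B ∩ (K ∪ V i)))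
    (hVK : ∀ i, Disjoint (V i) K) (hVV : ∀ i j, i ≠ j → Disjoint (V i) (V j))
    (hxV : ∀ i, x i ∈ V i) (hTV : ∀ i, T i ⊆ V i \ {x i})
    (hTi : ∀ i, ∀ t ∈ T i, t ∉ M.closure (K ∪ (T i \ {t})))
    (hxcl : ∀ i, x i ∈ M.closure (K ∪ T i))
    (hD : ∀ i, M.IsCocircuit (D i)) (hxD : ∀ i, x i ∈ D i)
    (hDT : ∀ i, Disjoint (D i) (T i))
    (hDV : ∀ i j, i < j → Disjoint (D i) (V j))
    (hcard : max #K κ₀ < #ι) : False := by
  classical
  have hVE : ∀ i, V i ⊆ M.E := fun i => (hV i).trans (M.closure_subset_ground _)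
  set TT : Set α := ⋃ i, T i with hTT
  have hTTE : TT ⊆ M.E := iUnion_subset fun i => (hTV i).trans (sdiff_subset.trans (hVE i))
  have hxinj : Function.Injective x := by
    intro i j hij
    by_contra hne
    exact (hVV i j hne).le_bot ⟨hxV i, hij ▸ hxV j⟩
  -- `X` is not independent over `TT`
  have hdep : ∃ i, x i ∈ M.closure (TT ∪ (range x \ {x i})) := by
    by_contra hcon
    push Not at hcon
    have h1 : #(range x) ≤ max #K κ₀ := by
      refine counting hκ₀ hC (A := TT) hTTE hKE ?_ ?_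
      · rintro _ ⟨i, rfl⟩
        exact hcon i
      · rintro _ ⟨i, rfl⟩
        exact M.closure_subset_closure
          (union_subset_union_right _ (subset_iUnion T i)) (hxcl i)
    rw [mk_range_eq x hxinj] at h1
    exact absurd hcard (not_lt.2 h1)
  obtain ⟨i, hi⟩ := hdep
  have hxT : ∀ l, x i ∉ T l := by
    intro l hl
    by_cases h : i = l
    · subst h; exact (hTV i hl).2 rfl
    · exact (hVV i l h).le_bot ⟨hxV i, (hTV l hl).1⟩
  have hxn : x i ∉ TT ∪ (range x \ {x i}) := by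
    rintro (h | h)
    · obtain ⟨l, hl⟩ := mem_iUnion.1 h
      exact hxT l hl
    · exact h.2 rfl
  obtain ⟨C, hCsub, hCc, hxC⟩ := exists_isCircuit_of_mem_closure hi hxn
  have hCsub' : ∀ y ∈ C, ∃ l, y ∈ T l ∨ y = x l := by
    intro y hy
    rcases hCsub hy with h | h | h
    · exact ⟨i, Or.inr h⟩
    · obtain ⟨l, hl⟩ := mem_iUnion.1 h
      exact ⟨l, Or.inl hl⟩
    · obtain ⟨l, rfl⟩ := h.1
      exact ⟨l, Or.inr rfl⟩
  -- key property
  have key : ∀ l, (C ∩ V l).Nonempty → x l ∈ C := by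
    rintro l ⟨p, hpC, hpV⟩
    by_contra hxl
    have hpT : p ∈ T l := by
      obtain ⟨m, hm | hm⟩ := hCsub' p hpC
      · by_cases h : m = l
        · exact h ▸ hm
        · exact absurd ⟨(hTV m hm).1, hpV⟩ (fun h' => (hVV m l h).le_bot h')
      · by_cases h : m = l
        · subst h; exact absurd (hm ▸ hpC) hxl
        · exact absurd ⟨hm ▸ hxV m, hpV⟩ (fun h' => (hVV m l h).le_bot h')
    have hpcl : p ∈ M.closure (C \ {p}) := hCc.mem_closure_sdiff_singleton_of_mem hpC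
    have hsub : C \ {p} ⊆ (T l \ {p}) ∪ K ∪ ⋃ m ∈ {m | m ≠ l}, V m := by
      rintro y ⟨hyC, hyp⟩
      obtain ⟨m, hm⟩ := hCsub' y hyC
      by_cases h : m = l
      · subst h
        rcases hm with hm | hm
        · exact Or.inl (Or.inl ⟨hm, hyp⟩)
        · exact absurd (hm ▸ hyC) hxl
      · refine Or.inr (mem_biUnion (show m ∈ {m | m ≠ l} from h) ?_)
        rcases hm with hm | hm
        · exact (hTV m hm).1
        · exact hm ▸ hxV m
    have hpcl' := M.closure_subset_closure hsub hpcl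
    have := directSum_aux (V := V l) (W := ⋃ m ∈ {m | m ≠ l}, V m) (S := T l \ {p}) hB hKE
      (sdiff_subset.trans ((hTV l).trans (sdiff_subset.trans (hVE l)))) hK (hV l) ?_ ?_
      (sdiff_subset.trans ((hTV l).trans sdiff_subset)) hpV hpcl'
    · refine hTi l p hpT ?_
      rwa [union_comm] at this
    · intro y hy
      obtain ⟨m, hm, hym⟩ := mem_iUnion₂.1 hy
      refine M.closure_subset_closure ?_ (hV m hym)
      refine inter_subset_inter_right _ (union_subset_union_right _ ?_)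
      exact subset_biUnion_of_mem (u := fun m => V m) hm
    · rw [disjoint_left]
      intro y hy hy'
      obtain ⟨m, hm, hym⟩ := mem_iUnion₂.1 hy
      rcases hy' with h | h
      · exact (hVK m).le_bot ⟨hym, h⟩
      · exact (hVV m l hm).le_bot ⟨hym, h⟩
  -- minimal index
  have hne : {l | (C ∩ V l).Nonempty}.Nonempty := ⟨i, x i, hxC, hxV i⟩
  obtain ⟨l, hl, hmin⟩ := WellFounded.has_min (r := ((· < ·) : ι → ι → Prop)) wellFounded_lt _ hne
  have hxl : x l ∈ C := key l hl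
  refine hCc.inter_isCocircuit_ne_singleton (hD l) (e := x l) ?_
  apply Subset.antisymm
  · rintro y ⟨hyC, hyD⟩
    obtain ⟨m, hm⟩ := hCsub' y hyC
    have hyV : y ∈ V m := by
      rcases hm with hm | hm
      · exact (hTV m hm).1
      · exact hm ▸ hxV m
    rcases lt_trichotomy m l with h | h | h
    · exact absurd h (hmin m ⟨y, hyC, hyV⟩)
    · subst h
      rcases hm with hm | hm
      · exact absurd ⟨hyD, hm⟩ (fun h' => (hDT m).le_bot h')
      · exact hm
    · exact absurd ⟨hyD, hyV⟩ (fun h' => (hDV l m h).le_bot h')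
  · rintro y rfl
    exact ⟨hxl, hxD l⟩

lemma final_strong {ι : Type u} [LinearOrder ι] [WellFoundedLT ι]
    {κ : Cardinal.{u}} (hκ : ℵ₀ ≤ κ) (hC : ∀ C, M.IsCircuit C → #C < κ)
    {K : Set α} (hKE : K ⊆ M.E) (hKc : #K ≤ κ)
    (V D W : ι → Set α) (x : ι → α)
    (hVE : ∀ i, V i ⊆ M.E)
    (hVV : ∀ i j, i ≠ j → Disjoint (V i) (V j))
    (hxV : ∀ i, x i ∈ V i)
    (hxcl : ∀ i, x i ∈ M.closure (K ∪ (V i \ {x i})))
    (hD : ∀ i, M.IsCocircuit (D i)) (hDW : ∀ i, D i ⊆ W i)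
    (hDV : ∀ i, D i ∩ V i = {x i})
    (hWc : ∀ i, #(W i) ≤ κ) (hWE : ∀ i, W i ⊆ M.E)
    (hWV : ∀ i j, i < j → Disjoint (W i) (V j))
    (hwit : ∀ i, ∀ Z ⊆ V i, (∃ D', M.IsCocircuit D' ∧ #D' ≤ κ ∧ ∃ z, Z ∩ D' = {z}) →
      ∃ D', M.IsCocircuit D' ∧ D' ⊆ W i ∧ ∃ z, Z ∩ D' = {z})
    (hcard : κ < #ι) : False := by
  classical
  set TT : Set α := ⋃ i, (V i \ {x i}) with hTT
  have hTTE : TT ⊆ M.E := iUnion_subset fun i => sdiff_subset.trans (hVE i)
  have hxinj : Function.Injective x := by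
    intro i j hij
    by_contra hne
    exact (hVV i j hne).le_bot ⟨hxV i, hij ▸ hxV j⟩
  have hdep : ∃ i, x i ∈ M.closure (TT ∪ (range x \ {x i})) := by
    by_contra hcon
    push Not at hcon
    have h1 : #(range x) ≤ max #K κ := by
      refine counting hκ (fun C hC' => (hC C hC').le) (A := TT) hTTE hKE ?_ ?_
      · rintro _ ⟨i, rfl⟩
        exact hcon i
      · rintro _ ⟨i, rfl⟩
        exact M.closure_subset_closure
          (union_subset_union_right _ (subset_iUnion (fun i => V i \ {x i}) i)) (hxcl i)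
    rw [mk_range_eq x hxinj, max_eq_right hKc] at h1
    exact absurd hcard (not_lt.2 h1)
  obtain ⟨i, hi⟩ := hdep
  have hxn : x i ∉ TT ∪ (range x \ {x i}) := by
    rintro (h | h)
    · obtain ⟨l, hl⟩ := mem_iUnion.1 h
      by_cases hil : i = l
      · subst hil; exact hl.2 rfl
      · exact (hVV i l hil).le_bot ⟨hxV i, hl.1⟩
    · exact h.2 rfl
  obtain ⟨C, hCsub, hCc, hxC⟩ := exists_isCircuit_of_mem_closure hi hxn
  have hCsub' : ∀ y ∈ C, ∃ l, y ∈ V l := by
    intro y hy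
    rcases hCsub hy with h | h | h
    · exact ⟨i, h ▸ hxV i⟩
    · obtain ⟨l, hl⟩ := mem_iUnion.1 h
      exact ⟨l, hl.1⟩
    · obtain ⟨l, rfl⟩ := h.1
      exact ⟨l, hxV l⟩
  -- the index set of `C`
  set J : Set ι := {l | (C ∩ V l).Nonempty} with hJ
  have hJc : #J ≤ κ := by
    have hch : ∀ l : J, ∃ y, y ∈ C ∧ y ∈ V l := fun l => ⟨_, l.2.some_mem.1, l.2.some_mem.2⟩
    choose y hyC hyV using hch
    have hinj : Function.Injective (fun l : J => (⟨y l, hyC l⟩ : C)) := by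
      intro l m hlm
      have hlm' : y l = y m := congrArg Subtype.val hlm
      by_contra hne
      have hne' : (l : ι) ≠ m := fun h => hne (Subtype.ext h)
      exact (hVV l m hne').le_bot ⟨hyV l, hlm' ▸ hyV m⟩
    exact (mk_le_of_injective hinj).trans (hC C hCc).le
  -- the small set `Y` and the contraction `N = M / (E \ Y)`
  set Y : Set α := C ∪ ⋃ l ∈ J, W l with hY
  have hYE : Y ⊆ M.E := union_subset hCc.subset_ground (iUnion₂_subset fun l _ => hWE l)
  have hYc : #Y ≤ κ := by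
    refine (mk_union_le _ _).trans ?_
    refine add_le_of_le hκ (hC C hCc).le ?_
    refine (mk_biUnion_le _ _).trans ?_
    calc #J * ⨆ l : J, #(W l) ≤ κ * κ := by
          gcongr
          exact ciSup_le' fun l => hWc l
      _ = κ := mul_eq_self hκ
  have hCY : C ⊆ Y := subset_union_left
  have hNco : ∀ D', (M ／ (M.E \ Y)).IsCocircuit D' ↔ M.IsCocircuit D' ∧ D' ⊆ Y := by
    intro D'
    rw [isCocircuit_def, dual_contract, delete_isCircuit_iff, ← isCocircuit_def]
    refine and_congr_right fun h => ?_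
    rw [disjoint_left]
    constructor
    · intro h' y hy
      by_contra hyY
      exact h' hy ⟨h.subset_ground hy, hyY⟩
    · intro h' y hy hy'
      exact hy'.2 (h' hy)
  obtain ⟨Z, hZc, hxZ, hZC⟩ : ∃ Z, (M ／ (M.E \ Y)).IsCircuit Z ∧ x i ∈ Z ∧ Z ⊆ C := by
    have hmem : x i ∈ (M ／ (M.E \ Y)).closure (C \ {x i}) := by
      rw [contract_closure_eq]
      refine ⟨?_, fun h => h.2 (hCY hxC)⟩
      exact M.closure_subset_closure subset_union_left
        (hCc.mem_closure_sdiff_singleton_of_mem hxC)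
    obtain ⟨Z, hZ, hZc, hxZ⟩ := exists_isCircuit_of_mem_closure hmem (fun h => h.2 rfl)
    refine ⟨Z, hZc, hxZ, hZ.trans ?_⟩
    rw [insert_sdiff_singleton, insert_eq_of_mem hxC]
  -- minimal index met by `Z`
  have hne : {l | (Z ∩ V l).Nonempty}.Nonempty := ⟨i, x i, hxZ, hxV i⟩
  obtain ⟨l, hl, hmin⟩ := WellFounded.has_min (r := ((· < ·) : ι → ι → Prop)) wellFounded_lt _ hne
  have hlJ : l ∈ J := ⟨_, hZC hl.some_mem.1, hl.some_mem.2⟩
  have hZloc : ∀ D' ⊆ W l, Z ∩ D' = (Z ∩ V l) ∩ D' := by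
    intro D' hD'
    apply Subset.antisymm
    · rintro y ⟨hyZ, hyD⟩
      obtain ⟨m, hm⟩ := hCsub' y (hZC hyZ)
      rcases lt_trichotomy m l with h | h | h
      · exact absurd h (hmin m ⟨y, hyZ, hm⟩)
      · subst h; exact ⟨⟨hyZ, hm⟩, hyD⟩
      · exact absurd ⟨hD' hyD, hm⟩ (fun h' => (hWV l m h).le_bot h')
    · exact inter_subset_inter_left _ inter_subset_left
  -- `Z ∩ V l` is a pseudo-cycle
  have hps : ¬ ∃ D', M.IsCocircuit D' ∧ #D' ≤ κ ∧ ∃ z, (Z ∩ V l) ∩ D' = {z} := by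
    intro hex
    obtain ⟨D', hD'c, hD'W, z, hz⟩ := hwit l (Z ∩ V l) inter_subset_right hex
    have hD'N : (M ／ (M.E \ Y)).IsCocircuit D' := by
      rw [hNco]
      refine ⟨hD'c, hD'W.trans ?_⟩
      exact (subset_biUnion_of_mem (u := fun l => W l) hlJ).trans subset_union_right
    refine hZc.inter_isCocircuit_ne_singleton hD'N (e := z) ?_
    rw [hZloc D' hD'W, hz]
  -- hence `Z ⊆ V l`
  have hZV : Z ⊆ V l := by
    by_contra hnot
    have hss : Z ∩ V l ⊂ Z := by
      refine ⟨inter_subset_left, fun h => hnot (h.trans inter_subset_right)⟩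
    have hind := hZc.ssubset_indep hss
    obtain ⟨z, hz⟩ := hl
    obtain ⟨D', hD'c, hD'⟩ := hind.exists_isCocircuit_inter_eq_mem hz
    rw [hNco] at hD'c
    refine hps ⟨D', hD'c.1, (mk_le_mk_of_subset hD'c.2).trans hYc, z, ?_⟩
    rw [inter_comm]; exact hD'
  have hil : i = l := by
    by_contra h
    exact (hVV i l h).le_bot ⟨hxV i, hZV hxZ⟩
  subst hil
  have : Z ∩ D i = {x i} := by
    apply Subset.antisymm
    · rintro y ⟨hyZ, hyD⟩
      rw [← hDV i]
      exact ⟨hyD, hZV hyZ⟩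
    · rintro y rfl
      exact ⟨hxZ, (hDV i ▸ mem_singleton (x i) : x i ∈ D i ∩ V i).1⟩
  refine hps ⟨D i, hD i, (mk_le_mk_of_subset (hDW i)).trans (hWc i), x i, ?_⟩
  rw [← hZloc (D i) (hDW i), this]

end Pool.Hhelper49.Kappa
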