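import Mathlib

/-!
# An abstract sequence lemma used for MP_d197f9_co
-/

namespace Pool.Hhelper49.Kappa

open Set Cardinal

universe u v

/-- union of fewer than `c` sets of size less than `c`, indexed by a proper initial segment -/
lemma mk_biUnion_lt_of_isRegular {ι α : Type u} {c : Cardinal.{u}} (hc : c.IsRegular)
    {s : Set ι} (hs : #s < c) (t : ι → Set α) (ht : ∀ i ∈ s, #(t i) < c) :
    #(⋃ i ∈ s, t i : Set α) < c :=
  (card_biUnion_lt_iff_forall_of_isRegular hc hs).2 ht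

lemma mk_union_lt {α : Type u} {c : Cardinal.{u}} (hc : ℵ₀ ≤ c) {s t : Set α}
    (hs : #s < c) (ht : #t < c) : #(s ∪ t : Set α) < c :=
  (mk_union_le _ _).trans_lt (add_lt_of_lt hc hs ht)

section rec

variable {ι : Type u} [LinearOrder ι] [WellFoundedLT ι] {β : Type v}

/-- strong recursion with values in a type, in terms of a function of the previous values -/
lemma exists_wf_rec (F : (i : ι) → ((j : ι) → j < i → β) → β) :
    ∃ f : ι → β, ∀ i, f i = F i (fun j _ => f j) :=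
  ⟨WellFoundedLT.fix (fun i ih => F i ih), fun i => WellFoundedLT.fix_eq _ i⟩

end rec

/-- The abstract sequence lemma. -/
theorem exists_seq {α : Type u} {τ : Type v} (x : τ → α) (U W : τ → Set α)
    {κ₀ lam : Cardinal.{u}}
    (hκ₀ : ℵ₀ ≤ κ₀) (hlam : lam.IsRegular) (hlt : κ₀ < lam)
    (hU : ∀ t, #(U t) < κ₀) (hW : ∀ t, #(W t) < lam)
    (Q : Set α → Prop)
    (hQ : ∀ K : Set α, #K < lam → ∃ K', K ⊆ K' ∧ #K' < lam ∧ Q K')
    (hex : ∀ Y : Set α, #Y < lam → ∃ t, x t ∉ Y)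
    (K₀ : Set α) (hK₀ : #K₀ < lam) :
    ∃ K, K₀ ⊆ K ∧ #K < lam ∧ Q K ∧ ∃ t : lam.ord.ToType → τ,
      ∀ j, x (t j) ∉ K ∪ ⋃ i ∈ Iio j, W (t i) ∧
        U (t j) ∩ (K ∪ ⋃ i ∈ Iio j, W (t i)) ⊆ K := by
  classical
  -- Step 1 : find `K`
  have step1 : ∃ K, K₀ ⊆ K ∧ #K < lam ∧ Q K ∧
      ∀ Y : Set α, #Y < lam → ∃ t, x t ∉ Y ∧ U t ∩ Y ⊆ K := by
    by_contra hcon
    push Not at hcon
    -- bad Y for K
    have hY : ∀ K : Set α, ∃ Y : Set α, (K₀ ⊆ K → #K < lam → Q K →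
        (#Y < lam ∧ ∀ t, x t ∉ Y → ¬ U t ∩ Y ⊆ K)) := by
      intro K
      by_cases h : K₀ ⊆ K ∧ #K < lam ∧ Q K
      · obtain ⟨Y, hY1, hY2⟩ := hcon K h.1 h.2.1 h.2.2
        exact ⟨Y, fun _ _ _ => ⟨hY1, hY2⟩⟩
      · exact ⟨∅, fun h1 h2 h3 => absurd ⟨h1, h2, h3⟩ h⟩
    choose Y hY using hY
    have hc : ∀ K : Set α, ∃ K' : Set α, (#K < lam → K ⊆ K' ∧ #K' < lam ∧ Q K') := by
      intro K
      by_cases h : #K < lam
      · obtain ⟨K', h'⟩ := hQ K h
        exact ⟨K', fun _ => h'⟩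
      · exact ⟨∅, fun h' => absurd h' h⟩
    choose c hc using hc
    let I := κ₀.ord.ToType
    obtain ⟨f, hf⟩ := exists_wf_rec (ι := I) (β := Set α)
      (fun i ih => c (K₀ ∪ ⋃ j, ⋃ hj : j < i, (ih j hj ∪ Y (ih j hj))))
    have hIio : ∀ i : I, #(Iio i) < lam := fun i => by
      have := mk_Iio_lt i (by simp [I])
      rw [mk_ord_toType] at this
      exact this.trans hlt
    -- properties
    have hprop : ∀ i : I, #(K₀ ∪ ⋃ j ∈ Iio i, (f j ∪ Y (f j)) : Set α) < lam ∧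
        K₀ ⊆ f i ∧ #(f i) < lam ∧ Q (f i) := by
      intro i
      induction i using WellFoundedLT.induction with
      | ind i ih =>
        have h1 : #(K₀ ∪ ⋃ j ∈ Iio i, (f j ∪ Y (f j)) : Set α) < lam := by
          refine mk_union_lt hlam.aleph0_le hK₀ ?_
          refine mk_biUnion_lt_of_isRegular hlam (hIio i) _ ?_
          intro j hj
          obtain ⟨_, h2, h3, h4⟩ := ih j hj
          exact mk_union_lt hlam.aleph0_le h3 (hY _ h2 h3 h4).1
        have hfi : f i = c (K₀ ∪ ⋃ j ∈ Iio i, (f j ∪ Y (f j))) := hf i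
        obtain ⟨h2, h3, h4⟩ := hc _ h1
        rw [← hfi] at h2 h3 h4
        exact ⟨h1, subset_union_left.trans h2, h3, h4⟩
    have hsub : ∀ i j : I, j < i → f j ∪ Y (f j) ⊆ f i := by
      intro i j hji
      have hfi : f i = c (K₀ ∪ ⋃ j ∈ Iio i, (f j ∪ Y (f j))) := hf i
      obtain ⟨h2, h3, h4⟩ := hc _ (hprop i).1
      rw [hfi]
      refine Subset.trans ?_ h2
      refine Subset.trans ?_ subset_union_right
      exact subset_biUnion_of_mem (u := fun j => f j ∪ Y (f j)) (show j ∈ Iio i from hji)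
    -- total union
    have htot : #(⋃ i : I, Y (f i) : Set α) < lam := by
      refine (card_iUnion_lt_iff_forall_of_isRegular hlam ?_).2 ?_
      · simpa [I] using hlt
      · intro i
        obtain ⟨_, h2, h3, h4⟩ := hprop i
        exact (hY _ h2 h3 h4).1
    obtain ⟨t, ht⟩ := hex _ htot
    have hbad : ∀ i : I, ∃ y, y ∈ U t ∧ y ∈ Y (f i) ∧ y ∉ f i := by
      intro i
      obtain ⟨_, h2, h3, h4⟩ := hprop i
      have hx : x t ∉ Y (f i) := fun h => ht (mem_iUnion.2 ⟨i, h⟩)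
      have := (hY _ h2 h3 h4).2 t hx
      rw [not_subset] at this
      obtain ⟨y, hy, hyn⟩ := this
      exact ⟨y, hy.1, hy.2, hyn⟩
    choose y hyU hyY hyn using hbad
    have hinj : Function.Injective (fun i : I => (⟨y i, hyU i⟩ : U t)) := by
      intro i j hij
      have hij' : y i = y j := congrArg Subtype.val hij
      by_contra hne
      rcases lt_or_gt_of_ne hne with h | h
      · exact hyn j (hij' ▸ hsub j i h (Or.inr (hyY i)))
      · exact hyn i (hij' ▸ hsub i j h (Or.inr (hyY j)))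
    have := mk_le_of_injective hinj
    have h2 : κ₀ ≤ #(U t) := by simpa [I] using this
    exact absurd (hU t) (not_lt.2 h2)
  obtain ⟨K, hK0, hKlt, hQK, hK⟩ := step1
  refine ⟨K, hK0, hKlt, hQK, ?_⟩
  have hch : ∀ Y : Set α, ∃ t, (#Y < lam → x t ∉ Y ∧ U t ∩ Y ⊆ K) := by
    intro Y
    by_cases h : #Y < lam
    · obtain ⟨t, ht⟩ := hK Y h
      exact ⟨t, fun _ => ht⟩
    · obtain ⟨t, _⟩ := hK K hKlt
      exact ⟨t, fun h' => absurd h' h⟩
  choose g hg using hch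
  obtain ⟨t, ht⟩ := exists_wf_rec (ι := lam.ord.ToType) (β := τ)
    (fun i ih => g (K ∪ ⋃ j, ⋃ hj : j < i, W (ih j hj)))
  refine ⟨t, fun j => ?_⟩
  have htj : t j = g (K ∪ ⋃ i ∈ Iio j, W (t i)) := ht j
  have hIio : #(Iio j) < lam := by
    have := mk_Iio_lt j (by simp)
    rwa [mk_ord_toType] at this
  have hlt' : #(K ∪ ⋃ i ∈ Iio j, W (t i) : Set α) < lam :=
    mk_union_lt hlam.aleph0_le hKlt (mk_biUnion_lt_of_isRegular hlam hIio _ fun i _ => hW _)
  have := hg _ hlt'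
  rw [← htj] at this
  exact this

end Pool.Hhelper49.Kappa
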