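import Mathlib
import Pool.Agent.Hhelper49.Kappa.Basic
import Pool.Agent.Hhelper49.Kappa.Seq
import Pool.Agent.Hhelper49.Kappa.Final

/-!
# The cocircuit-neighbourhood bounds used for MP_d197f9_co
-/

namespace Pool.Hhelper49.Kappa

open Set Cardinal Matroid

universe u

variable {α : Type u} {M : Matroid α}

/-- The union of all cocircuits of size less than `lam` that contain `k`. -/
def Nb (M : Matroid α) (lam : Cardinal.{u}) (k : α) : Set α :=
  ⋃₀ {D | M.IsCocircuit D ∧ #D < lam ∧ k ∈ D}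

lemma mem_Nb {lam : Cardinal.{u}} {k x : α} :
    x ∈ Nb M lam k ↔ ∃ D, M.IsCocircuit D ∧ #D < lam ∧ k ∈ D ∧ x ∈ D := by
  simp only [Nb, mem_sUnion, mem_ofPred_eq]
  constructor
  · rintro ⟨D, ⟨h1, h2, h3⟩, h4⟩; exact ⟨D, h1, h2, h3, h4⟩
  · rintro ⟨D, h1, h2, h3, h4⟩; exact ⟨D, ⟨h1, h2, h3⟩, h4⟩

lemma Nb_subset_ground (M : Matroid α) (lam : Cardinal.{u}) (k : α) : Nb M lam k ⊆ M.E := by
  intro x hx
  obtain ⟨D, h1, _, _, h4⟩ := mem_Nb.1 hx
  exact h1.subset_ground h4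

lemma exists_T {B K C : Set α} {x : α} (hB : M.Indep B) (hKE : K ⊆ M.E)
    (hK : K ⊆ M.closure (B ∩ K)) (hC : M.IsCircuit C) (hx : x ∈ C) :
    ∃ T ⊆ C \ {x}, Disjoint T K ∧ (∀ t ∈ T, t ∉ M.closure (K ∪ (T \ {t}))) ∧
      x ∈ M.closure (K ∪ T) := by
  have hBK : M.Indep (B ∩ K) := hB.subset inter_subset_left
  have hE : K ∪ (C \ {x}) ⊆ M.E := union_subset hKE (sdiff_subset.trans hC.subset_ground)
  obtain ⟨J, hJ, hBJ⟩ := hBK.subset_isBasis_of_subset
    (show B ∩ K ⊆ K ∪ (C \ {x}) from inter_subset_right.trans subset_union_left) hE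
  refine ⟨J \ K, ?_, disjoint_sdiff_left, ?_, ?_⟩
  · rintro y ⟨hyJ, hyK⟩
    rcases hJ.subset hyJ with h | h
    · exact absurd h hyK
    · exact h
  · rintro t ⟨htJ, htK⟩ hmem
    refine hJ.indep.notMem_closure_sdiff_of_mem htJ ?_
    refine closure_subset_closure_of_subset_closure ?_ hmem
    refine union_subset ?_ ?_
    · intro y hy
      refine M.closure_subset_closure ?_ (hK hy)
      intro z hz
      exact ⟨hBJ hz, fun h => htK (h ▸ hz.2)⟩
    · rintro y ⟨⟨hyJ, _⟩, hyt⟩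
      exact M.subset_closure _ (sdiff_subset.trans hJ.indep.subset_ground) ⟨hyJ, hyt⟩
  · have h1 : x ∈ M.closure (K ∪ (C \ {x})) :=
      M.closure_subset_closure subset_union_right (hC.mem_closure_sdiff_singleton_of_mem hx)
    rw [← hJ.closure_eq_closure] at h1
    refine M.closure_subset_closure ?_ h1
    intro y hy
    by_cases hyK : y ∈ K
    · exact Or.inl hyK
    · exact Or.inr ⟨hy, hyK⟩

lemma mk_fundCircuit_lt {κ : Cardinal.{u}} (hκ : ℵ₀ ≤ κ)
    (hC : ∀ C, M.IsCircuit C → #C < κ) {B : Set α} (hB : M.IsBase B) (e : α) :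
    #(M.fundCircuit e B) < κ := by
  by_cases heE : e ∈ M.E
  · by_cases heB : e ∈ B
    · rw [fundCircuit_eq_of_mem heB]; simpa using one_lt_aleph0.trans_le hκ
    · exact hC _ (hB.fundCircuit_isCircuit heE heB)
  · rw [fundCircuit_eq_of_notMem_ground heE]; simpa using one_lt_aleph0.trans_le hκ

/-- If all circuits have size less than the regular cardinal `κ'`, then for each regular
`lam > κ'` and each `k` the union of the cocircuits of size `< lam` through `k` has size `< lam`. -/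
theorem mk_Nb_lt_of_isRegular {κ' lam : Cardinal.{u}} (hκ' : κ'.IsRegular) (hlam : lam.IsRegular)
    (hlt : κ' < lam) (hC : ∀ C, M.IsCircuit C → #C < κ') (k : α) : #(Nb M lam k) < lam := by
  classical
  by_contra hcon
  rw [not_lt] at hcon
  obtain ⟨B, hB⟩ := M.exists_isBase
  let τ : Type u := {t : Set α × Set α × α // M.IsCircuit t.1 ∧ M.IsCocircuit t.2.1 ∧
    #t.2.1 < lam ∧ t.1 ∩ t.2.1 = {k, t.2.2} ∧ k ≠ t.2.2}
  let x : τ → α := fun t => t.1.2.2
  let Cc : τ → Set α := fun t => t.1.1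
  let Dd : τ → Set α := fun t => t.1.2.1
  have hCc : ∀ t, M.IsCircuit (Cc t) := fun t => t.2.1
  have hDd : ∀ t, M.IsCocircuit (Dd t) := fun t => t.2.2.1
  have hDc : ∀ t, #(Dd t) < lam := fun t => t.2.2.2.1
  have hCD : ∀ t, Cc t ∩ Dd t = {k, x t} := fun t => t.2.2.2.2.1
  let U : τ → Set α := fun t => ⋃ u ∈ Cc t, M.fundCircuit u B
  let W : τ → Set α := fun t => U t ∪ Dd t
  have hUc : ∀ t, #(U t) < κ' := fun t =>
    mk_biUnion_lt_of_isRegular hκ' (hC _ (hCc t)) _ fun u _ => mk_fundCircuit_lt hκ'.aleph0_le hC hB u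
  have hWc : ∀ t, #(W t) < lam := fun t =>
    mk_union_lt hlam.aleph0_le ((hUc t).trans hlt) (hDc t)
  let Q : Set α → Prop := fun K => ∀ u ∈ K, M.fundCircuit u B ⊆ K
  -- closure facts for fundamental circuits
  have hfund : ∀ S : Set α, ∀ v ∈ ⋃ u ∈ S, M.fundCircuit u B,
      M.fundCircuit v B ⊆ ⋃ u ∈ S, M.fundCircuit u B := by
    intro S v hv
    obtain ⟨u, hu, hvu⟩ := mem_iUnion₂.1 hv
    rcases M.fundCircuit_subset_insert u B hvu with h | h
    · subst h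
      exact subset_biUnion_of_mem (u := fun u => M.fundCircuit u B) hu
    · rw [fundCircuit_eq_of_mem h]
      rintro y rfl
      exact hv
  have hQ : ∀ K : Set α, #K < lam → ∃ K', K ⊆ K' ∧ #K' < lam ∧ Q K' := by
    intro K hK
    refine ⟨⋃ u ∈ K, M.fundCircuit u B, ?_, ?_, hfund K⟩
    · intro u hu
      exact mem_biUnion hu (M.mem_fundCircuit u B)
    · exact mk_biUnion_lt_of_isRegular hlam hK _ fun u _ =>
        (mk_fundCircuit_lt hκ'.aleph0_le hC hB u).trans hlt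
  have hex : ∀ Y : Set α, #Y < lam → ∃ t, x t ∉ Y := by
    intro Y hY
    have h1 : #(Y ∪ {k} : Set α) < lam :=
      mk_union_lt hlam.aleph0_le hY (by simpa using one_lt_aleph0.trans_le hlam.aleph0_le)
    have h2 : ¬ Nb M lam k ⊆ Y ∪ {k} := fun h =>
      absurd (hcon.trans (mk_le_mk_of_subset h)) (not_le.2 h1)
    obtain ⟨y, hy, hyn⟩ := not_subset.1 h2
    obtain ⟨D, hD, hDc, hkD, hyD⟩ := mem_Nb.1 hy
    have hky : k ≠ y := fun h => hyn (Or.inr h.symm)
    obtain ⟨C, hC', hCD⟩ := exists_isCircuit_inter_eq_pair hD hkD hyD hky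
    exact ⟨⟨(C, D, y), hC', hD, hDc, hCD, hky⟩, fun h => hyn (Or.inl h)⟩
  obtain ⟨K₁, hkK, hKc, hQK, t, ht⟩ := exists_seq x U W hκ'.aleph0_le hlam hlt hUc hWc Q hQ hex {k}
    (by simpa using one_lt_aleph0.trans_le hlam.aleph0_le)
  set K : Set α := K₁ ∩ M.E with hKdef
  have hKE : K ⊆ M.E := inter_subset_right
  have hKcl : ∀ S : Set α, S ⊆ M.E → (∀ u ∈ S, M.fundCircuit u B ⊆ S) →
      S ⊆ M.closure (B ∩ S) := by
    intro S hSE hS u hu
    by_cases huB : u ∈ B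
    · exact M.subset_closure _ (inter_subset_right.trans hSE) ⟨huB, hu⟩
    · have hc := hB.fundCircuit_isCircuit (hSE hu) huB
      have := hc.mem_closure_sdiff_singleton_of_mem (M.mem_fundCircuit u B)
      refine M.closure_subset_closure ?_ this
      rintro y ⟨hy, hyu⟩
      rcases M.fundCircuit_subset_insert u B hy with h | h
      · exact absurd h hyu
      · exact ⟨h, hS u hu hy⟩
  have hfundE : ∀ u ∈ M.E, M.fundCircuit u B ⊆ M.E := fun u hu =>
    M.fundCircuit_subset_ground hu hB.subset_ground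
  have hQK' : ∀ u ∈ K, M.fundCircuit u B ⊆ K := fun u hu =>
    subset_inter (hQK u hu.1) (hfundE u hu.2)
  have hUE : ∀ s, U s ⊆ M.E := fun s =>
    iUnion₂_subset fun u hu => hfundE u ((hCc s).subset_ground hu)
  have hCU : ∀ s, Cc s ⊆ U s := fun s u hu => mem_biUnion hu (M.mem_fundCircuit u B)
  have hkx : ∀ s, k ∈ Cc s ∧ k ∈ Dd s ∧ x s ∈ Cc s ∧ x s ∈ Dd s := by
    intro s
    have h1 : k ∈ Cc s ∩ Dd s := by rw [hCD s]; exact Or.inl rfl
    have h2 : x s ∈ Cc s ∩ Dd s := by rw [hCD s]; exact Or.inr rfl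
    exact ⟨h1.1, h1.2, h2.1, h2.2⟩
  let ι := lam.ord.ToType
  let V : ι → Set α := fun j => U (t j) \ K₁
  have hVdis : ∀ i j : ι, i < j → Disjoint (W (t i)) (V j) := by
    intro i j hij
    rw [disjoint_left]
    rintro y hyW ⟨hyU, hyK⟩
    exact hyK ((ht j).2 ⟨hyU, Or.inr (mem_biUnion (show i ∈ Iio j from hij) hyW)⟩)
  have hVW : ∀ i, V i ⊆ W (t i) := fun i => sdiff_subset.trans subset_union_left
  have hkK' : ∀ i : ι, k ∈ K := fun i => ⟨hkK rfl, (hCc (t i)).subset_ground (hkx (t i)).1⟩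
  have hT : ∀ j : ι, ∃ T ⊆ Cc (t j) \ {x (t j)}, Disjoint T K ∧
      (∀ u ∈ T, u ∉ M.closure (K ∪ (T \ {u}))) ∧ x (t j) ∈ M.closure (K ∪ T) := fun j =>
    exists_T hB.indep hKE (hKcl K hKE hQK') (hCc (t j)) (hkx (t j)).2.2.1
  choose T hTsub hTK hTi hxT using hT
  have hxK : ∀ j, x (t j) ∉ K₁ := fun j h => (ht j).1 (Or.inl h)
  refine final_regular (ι := ι) hκ'.aleph0_le (fun C h => (hC C h).le) hB.indep hKE
    V T (fun j => Dd (t j)) (fun j => x (t j)) (hKcl K hKE hQK') ?_ ?_ ?_ ?_ ?_ hTi hxT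
    (fun j => hDd _) (fun j => (hkx (t j)).2.2.2) ?_ ?_ ?_
  · -- V ⊆ closure
    intro j v hv
    have h1 := hKcl (K ∪ U (t j)) (union_subset hKE (hUE _)) (by
      rintro u (hu | hu)
      · exact (hQK' u hu).trans subset_union_left
      · exact (hfund _ u hu).trans subset_union_right)
    refine M.closure_subset_closure ?_ (h1 (Or.inr hv.1))
    refine inter_subset_inter_right _ ?_
    rintro y (hy | hy)
    · exact Or.inl hy
    · by_cases hyK : y ∈ K₁
      · exact Or.inl ⟨hyK, hUE _ hy⟩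
      · exact Or.inr ⟨hy, hyK⟩
  · intro j
    rw [disjoint_left]
    rintro y ⟨_, hy⟩ ⟨hy', _⟩
    exact hy hy'
  · intro i j hij
    rcases lt_or_gt_of_ne hij with h | h
    · exact (hVdis i j h).mono_left (hVW i)
    · exact ((hVdis j i h).mono_left (hVW j)).symm
  · intro j
    exact ⟨hCU _ (hkx (t j)).2.2.1, hxK j⟩
  · intro j u hu
    refine ⟨⟨hCU _ (hTsub j hu).1, fun h => ?_⟩, (hTsub j hu).2⟩
    exact (hTK j).le_bot ⟨hu, h, (hCc (t j)).subset_ground (hTsub j hu).1⟩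
  · intro j
    rw [disjoint_left]
    intro y hyD hyT
    have hyCD : y ∈ Cc (t j) ∩ Dd (t j) := ⟨(hTsub j hyT).1, hyD⟩
    rw [hCD (t j)] at hyCD
    rcases hyCD with h | h
    · exact (hTK j).le_bot ⟨hyT, h ▸ hkK' j⟩
    · exact (hTsub j hyT).2 h
  · intro i j hij
    exact (hVdis i j hij).mono_left subset_union_right
  · rw [mk_ord_toType]
    exact max_lt ((mk_le_mk_of_subset inter_subset_left).trans_lt hKc) hlt

/-- If all circuits have size less than `κ` and `2 ^ μ ≤ κ` for all `μ < κ`, then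
for each `k` the union of the cocircuits of size `≤ κ` through `k` has size `≤ κ`. -/
theorem mk_Nb_lt_of_strong {κ : Cardinal.{u}} (hκ : ℵ₀ ≤ κ)
    (h2 : ∀ μ < κ, 2 ^ μ ≤ κ) (hC : ∀ C, M.IsCircuit C → #C < κ) (k : α) :
    #(Nb M (Order.succ κ) k) < Order.succ κ := by
  classical
  set lam : Cardinal.{u} := Order.succ κ with hlamdef
  have hlam : lam.IsRegular := isRegular_succ hκ
  have hlt : κ < lam := Order.lt_succ κ
  have hle : ∀ {c : Cardinal.{u}}, c < lam ↔ c ≤ κ := Order.lt_succ_iff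
  by_contra hcon
  rw [not_lt] at hcon
  let τ : Type u := {t : Set α × Set α × α // M.IsCircuit t.1 ∧ M.IsCocircuit t.2.1 ∧
    #t.2.1 < lam ∧ t.1 ∩ t.2.1 = {k, t.2.2} ∧ k ≠ t.2.2}
  let x : τ → α := fun t => t.1.2.2
  let Cc : τ → Set α := fun t => t.1.1
  let Dd : τ → Set α := fun t => t.1.2.1
  have hCc : ∀ t, M.IsCircuit (Cc t) := fun t => t.2.1
  have hDd : ∀ t, M.IsCocircuit (Dd t) := fun t => t.2.2.1
  have hDc : ∀ t, #(Dd t) < lam := fun t => t.2.2.2.1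
  have hCD : ∀ t, Cc t ∩ Dd t = {k, x t} := fun t => t.2.2.2.2.1
  -- witnesses
  have hw : ∀ Z : Set α, ∃ D' : Set α, (M.IsCocircuit D' ∨ D' = ∅) ∧ #D' ≤ κ ∧
      ((∃ D', M.IsCocircuit D' ∧ #D' ≤ κ ∧ ∃ z, Z ∩ D' = {z}) →
        M.IsCocircuit D' ∧ ∃ z, Z ∩ D' = {z}) := by
    intro Z
    by_cases h : ∃ D', M.IsCocircuit D' ∧ #D' ≤ κ ∧ ∃ z, Z ∩ D' = {z}
    · obtain ⟨D', h1, h2, h3⟩ := h
      exact ⟨D', Or.inl h1, h2, fun _ => ⟨h1, h3⟩⟩
    · exact ⟨∅, Or.inr rfl, by simp, fun h' => absurd h' h⟩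
  choose w hw1 hw2 hw3 using hw
  have hwE : ∀ Z, w Z ⊆ M.E := by
    intro Z
    rcases hw1 Z with h | h
    · exact h.subset_ground
    · rw [h]; exact empty_subset _
  let W : τ → Set α := fun t => (Cc t ∪ Dd t) ∪ ⋃ Z ∈ 𝒫 (Cc t), w Z
  have hWc : ∀ t, #(W t) < lam := by
    intro t
    refine mk_union_lt hlam.aleph0_le (mk_union_lt hlam.aleph0_le ((hC _ (hCc t)).trans hlt)
      (hDc t)) ?_
    refine mk_biUnion_lt_of_isRegular hlam ?_ _ fun Z _ => hle.2 (hw2 Z)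
    rw [mk_powerset]
    exact hle.2 (h2 _ (hC _ (hCc t)))
  have hex : ∀ Y : Set α, #Y < lam → ∃ t, x t ∉ Y := by
    intro Y hY
    have h1 : #(Y ∪ {k} : Set α) < lam :=
      mk_union_lt hlam.aleph0_le hY (by simpa using one_lt_aleph0.trans_le hlam.aleph0_le)
    have h2 : ¬ Nb M lam k ⊆ Y ∪ {k} := fun h =>
      absurd (hcon.trans (mk_le_mk_of_subset h)) (not_le.2 h1)
    obtain ⟨y, hy, hyn⟩ := not_subset.1 h2
    obtain ⟨D, hD, hDc, hkD, hyD⟩ := mem_Nb.1 hy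
    have hky : k ≠ y := fun h => hyn (Or.inr h.symm)
    obtain ⟨C, hC', hCD⟩ := exists_isCircuit_inter_eq_pair hD hkD hyD hky
    exact ⟨⟨(C, D, y), hC', hD, hDc, hCD, hky⟩, fun h => hyn (Or.inl h)⟩
  obtain ⟨K₁, hkK, hKc, _, t, ht⟩ := exists_seq x Cc W hκ hlam hlt
    (fun t => hC _ (hCc t)) hWc (fun _ => True) (fun K hK => ⟨K, Subset.rfl, hK, trivial⟩) hex {k}
    (by simpa using one_lt_aleph0.trans_le hlam.aleph0_le)
  set K : Set α := K₁ ∩ M.E with hKdef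
  have hKE : K ⊆ M.E := inter_subset_right
  have hkx : ∀ s, k ∈ Cc s ∧ k ∈ Dd s ∧ x s ∈ Cc s ∧ x s ∈ Dd s := by
    intro s
    have h1 : k ∈ Cc s ∩ Dd s := by rw [hCD s]; exact Or.inl rfl
    have h2 : x s ∈ Cc s ∩ Dd s := by rw [hCD s]; exact Or.inr rfl
    exact ⟨h1.1, h1.2, h2.1, h2.2⟩
  let ι := lam.ord.ToType
  let V : ι → Set α := fun j => Cc (t j) \ K₁
  have hVdis : ∀ i j : ι, i < j → Disjoint (W (t i)) (V j) := by
    intro i j hij
    rw [disjoint_left]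
    rintro y hyW ⟨hyU, hyK⟩
    exact hyK ((ht j).2 ⟨hyU, Or.inr (mem_biUnion (show i ∈ Iio j from hij) hyW)⟩)
  have hVW : ∀ i, V i ⊆ W (t i) := fun i =>
    sdiff_subset.trans (subset_union_left.trans subset_union_left)
  have hxK : ∀ j, x (t j) ∉ K₁ := fun j h => (ht j).1 (Or.inl h)
  have hCE : ∀ s, Cc s ⊆ M.E := fun s => (hCc s).subset_ground
  refine final_strong (ι := ι) hκ hC hKE (hle.1 ((mk_le_mk_of_subset inter_subset_left).trans_lt hKc))
    V (fun j => Dd (t j)) (fun j => W (t j)) (fun j => x (t j)) ?_ ?_ ?_ ?_ (fun j => hDd _) ?_ ?_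
    (fun j => hle.1 (hWc _)) ?_ hVdis ?_ ?_
  · exact fun j => sdiff_subset.trans (hCE _)
  · intro i j hij
    rcases lt_or_gt_of_ne hij with h | h
    · exact (hVdis i j h).mono_left (hVW i)
    · exact ((hVdis j i h).mono_left (hVW j)).symm
  · exact fun j => ⟨(hkx (t j)).2.2.1, hxK j⟩
  · intro j
    refine M.closure_subset_closure ?_
      ((hCc (t j)).mem_closure_sdiff_singleton_of_mem (hkx (t j)).2.2.1)
    rintro y ⟨hy, hyx⟩
    by_cases hyK : y ∈ K₁
    · exact Or.inl ⟨hyK, hCE _ hy⟩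
    · exact Or.inr ⟨⟨hy, hyK⟩, hyx⟩
  · exact fun j => subset_union_right.trans subset_union_left
  · intro j
    apply Subset.antisymm
    · rintro y ⟨hyD, hyC, hyK⟩
      have hyCD : y ∈ Cc (t j) ∩ Dd (t j) := ⟨hyC, hyD⟩
      rw [hCD (t j)] at hyCD
      rcases hyCD with h | h
      · exact absurd (hkK rfl) (h ▸ hyK)
      · exact h
    · rintro y rfl
      exact ⟨(hkx (t j)).2.2.2, (hkx (t j)).2.2.1, hxK j⟩
  · intro j
    refine union_subset (union_subset (hCE _) (hDd _).subset_ground) ?_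
    exact iUnion₂_subset fun Z _ => hwE Z
  · intro j Z hZ hZex
    obtain ⟨h1, h2⟩ := hw3 Z hZex
    refine ⟨w Z, h1, ?_, h2⟩
    have hZC : Z ∈ 𝒫 (Cc (t j)) := hZ.trans sdiff_subset
    exact (subset_biUnion_of_mem (u := fun Z => w Z) hZC).trans subset_union_right
  · rw [mk_ord_toType]; exact hlt

end Pool.Hhelper49.Kappa
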