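import Mathlib

/-!
# Matchings of circuits and `κ`-matching extendable matroids
-/

namespace Pool.Hhelper49.Kappa

open Set Cardinal

universe u

variable {α : Type u}

/-- A matching of `M` is a set of pairwise disjoint circuits of `M`. -/
def IsMatching (M : Matroid α) (𝒜 : Set (Set α)) : Prop :=
  (∀ C ∈ 𝒜, M.IsCircuit C) ∧ 𝒜.PairwiseDisjoint id

/-- `M` is `κ`-matching extendable: for every matching `𝒜` with fewer than `κ` circuits and every
element `e` of the ground set outside `⋃ 𝒜` there is a circuit through `e` disjoint from `⋃ 𝒜`. -/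
def MatchingExtendable (κ : Cardinal.{u}) (M : Matroid α) : Prop :=
  ∀ 𝒜 : Set (Set α), IsMatching M 𝒜 → #𝒜 < κ → ∀ e ∈ M.E \ ⋃₀ 𝒜,
    ∃ C, M.IsCircuit C ∧ e ∈ C ∧ Disjoint C (⋃₀ 𝒜)

/-- A perfect matching: a matching whose union is the whole ground set. -/
def IsPerfectMatching (M : Matroid α) (𝒬 : Set (Set α)) : Prop :=
  IsMatching M 𝒬 ∧ ⋃₀ 𝒬 = M.E

end Pool.Hhelper49.Kappa
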