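import Mathlib
import Pool.Agent.Hhelper49.Kappa.Defs
import Pool.Agent.Hhelper49.Kappa.Seq

/-!
# The greedy lemma and the deletion lemma used for MP_d197f9_co
-/

namespace Pool.Hhelper49.Kappa

open Set Cardinal Matroid

universe u

variable {α : Type u} {M : Matroid α}

/-- Painting lemma: `e ∉ R` is in a circuit avoiding `R` or in a cocircuit inside `R ∪ {e}`. -/
lemma circuit_or_cocircuit {R : Set α} {e : α} (he : e ∈ M.E) (heR : e ∉ R) :
    (∃ C, M.IsCircuit C ∧ e ∈ C ∧ Disjoint C R) ∨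
      ∃ D, M.IsCocircuit D ∧ e ∈ D ∧ D ⊆ insert e R := by
  by_cases h : e ∈ M.closure ((M.E \ R) \ {e})
  · left
    obtain ⟨C, hCs, hC, heC⟩ := exists_isCircuit_of_mem_closure h (fun h => h.2 rfl)
    refine ⟨C, hC, heC, ?_⟩
    rw [disjoint_left]
    intro y hy hyR
    rcases hCs hy with h' | h'
    · exact heR (h' ▸ hyR)
    · exact h'.1.2 hyR
  · right
    obtain ⟨I, hI⟩ := M.exists_isBasis ((M.E \ R) \ {e}) (sdiff_subset.trans sdiff_subset)
    have heI : e ∉ M.closure I := by rwa [hI.closure_eq_closure]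
    have hins : M.Indep (insert e I) := by
      rw [hI.indep.insert_indep_iff]
      exact Or.inl ⟨he, heI⟩
    obtain ⟨D, hD, hDI⟩ := hins.exists_isCocircuit_inter_eq_mem (mem_insert e I)
    have heD : e ∈ D := (hDI ▸ mem_singleton e : e ∈ D ∩ insert e I).1
    refine ⟨D, hD, heD, ?_⟩
    intro y hyD
    by_contra hyn
    rw [mem_insert_iff, not_or] at hyn
    have hyE : y ∈ M.E := hD.subset_ground hyD
    have hycl : y ∈ M.closure I := hI.subset_closure ⟨⟨hyE, hyn.2⟩, hyn.1⟩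
    have hyI : y ∉ I := by
      intro hyI
      have : y ∈ D ∩ insert e I := ⟨hyD, Or.inr hyI⟩
      rw [hDI] at this
      exact hyn.1 this
    obtain ⟨C, hCs, hC, hyC⟩ := exists_isCircuit_of_mem_closure hycl hyI
    refine hC.inter_isCocircuit_ne_singleton hD (e := y) ?_
    apply Subset.antisymm
    · rintro z ⟨hzC, hzD⟩
      rcases hCs hzC with h' | h'
      · exact h'
      · exfalso
        have : z ∈ D ∩ insert e I := ⟨hzD, Or.inr h'⟩
        rw [hDI] at this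
        have hze : z = e := this
        subst hze
        exact heI (M.subset_closure I hI.indep.subset_ground h')
    · rintro z rfl
      exact ⟨hyC, hyD⟩

lemma mk_sUnion_le_of_le {κ : Cardinal.{u}} (hκ : ℵ₀ ≤ κ) {𝒜 : Set (Set α)} (h1 : #𝒜 ≤ κ)
    (h2 : ∀ C ∈ 𝒜, #C ≤ κ) : #(⋃₀ 𝒜) ≤ κ := by
  refine (mk_sUnion_le _).trans ?_
  calc #𝒜 * ⨆ s : 𝒜, #s ≤ κ * κ := by
        gcongr
        exact ciSup_le' fun s => h2 s s.2
    _ = κ := mul_eq_self hκ

/-- If `X` is closed under the small cocircuits that meet it, then deleting `X` keeps the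
matroid `κ`-matching extendable. -/
lemma MatchingExtendable.delete {κ μ : Cardinal.{u}} (hκ : ℵ₀ ≤ κ)
    (hC : ∀ C, M.IsCircuit C → #C < κ) (hM : MatchingExtendable κ M) {X : Set α}
    (hκμ : κ ≤ μ) (hXμ : #X ≤ μ)
    (hcl : ∀ D, M.IsCocircuit D → #D ≤ μ → (D ∩ X).Nonempty → D ⊆ X) :
    MatchingExtendable κ (M ＼ X) := by
  intro 𝒜 h𝒜 h𝒜c e he
  have hμ : ℵ₀ ≤ μ := hκ.trans hκμ
  have hcirc : ∀ C ∈ 𝒜, M.IsCircuit C ∧ Disjoint C X := fun C h =>
    delete_isCircuit_iff.1 (h𝒜.1 C h)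
  have h𝒜M : IsMatching M 𝒜 := ⟨fun C h => (hcirc C h).1, h𝒜.2⟩
  obtain ⟨⟨heE, heX⟩, heA⟩ := he
  have heR : e ∉ X ∪ ⋃₀ 𝒜 := by rintro (h | h); exacts [heX h, heA h]
  rcases circuit_or_cocircuit heE heR with ⟨C, hC', heC, hdis⟩ | ⟨D, hD, heD, hDs⟩
  · rw [disjoint_union_right] at hdis
    exact ⟨C, delete_isCircuit_iff.2 ⟨hC', hdis.1⟩, heC, hdis.2⟩
  · exfalso
    have hA : #(⋃₀ 𝒜) ≤ μ := (mk_sUnion_le_of_le hκ h𝒜c.le
      fun C h => (hC C (hcirc C h).1).le).trans hκμ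
    have hDμ : #D ≤ μ := by
      refine (mk_le_mk_of_subset hDs).trans ?_
      refine (mk_insert_le).trans ?_
      refine add_le_of_le hμ ?_ (one_le_aleph0.trans hμ)
      exact (mk_union_le _ _).trans (add_le_of_le hμ hXμ hA)
    by_cases hDX : (D ∩ X).Nonempty
    · exact heX (hcl D hD hDμ hDX heD)
    · have hDs' : D ⊆ insert e (⋃₀ 𝒜) := by
        intro y hy
        rcases hDs hy with h | h | h
        · exact Or.inl h
        · exact absurd ⟨y, hy, h⟩ hDX
        · exact Or.inr h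
      obtain ⟨C, hC', heC, hdis⟩ := hM 𝒜 h𝒜M h𝒜c e ⟨heE, heA⟩
      refine hC'.inter_isCocircuit_ne_singleton hD (e := e) ?_
      apply Subset.antisymm
      · rintro y ⟨hyC, hyD⟩
        rcases hDs' hyD with h | h
        · exact h
        · exact absurd ⟨hyC, h⟩ (fun h' => hdis.le_bot h')
      · rintro y rfl
        exact ⟨heC, heD⟩

/-- enumeration of a set of size at most `κ` by `κ.ord.ToType` -/
lemma exists_enum (κ : Cardinal.{u}) (S : Set α) (hS : #S ≤ κ) :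
    ∃ e : κ.ord.ToType → Option α, ∀ a ∈ S, ∃ b, e b = some a := by
  classical
  have h : #S ≤ #κ.ord.ToType := by rwa [mk_ord_toType]
  obtain ⟨f⟩ := h
  refine ⟨fun b => if h : ∃ a : S, f a = b then some (h.choose : α) else none, ?_⟩
  intro a ha
  refine ⟨f ⟨a, ha⟩, ?_⟩
  have hex : ∃ a' : S, f a' = f ⟨a, ha⟩ := ⟨⟨a, ha⟩, rfl⟩
  simp only [hex, dif_pos]
  congr 1
  exact congrArg Subtype.val (f.injective hex.choose_spec)

/-- The greedy lemma. -/
theorem greedy {κ : Cardinal.{u}} (hκ : ℵ₀ ≤ κ) (hC : ∀ C, M.IsCircuit C → #C < κ)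
    (hM : MatchingExtendable κ M) (A : Set α) (hA : #A ≤ κ) (F : α → Set α)
    (hF : ∀ z, #(F z) ≤ κ) :
    ∃ 𝒬, IsMatching M 𝒬 ∧ A ∩ M.E ⊆ ⋃₀ 𝒬 ∧ #(⋃₀ 𝒬) ≤ κ ∧
      ∀ z ∈ ⋃₀ 𝒬, F z ∩ M.E ⊆ ⋃₀ 𝒬 := by
  classical
  let I := κ.ord.ToType
  have hI : #I = κ := mk_ord_toType κ
  have hInf : ℵ₀ ≤ #I := hI ▸ hκ
  have hφ : #I = #(Option I × I × I) := by
    have h1 : #(Option I) = κ := by rw [mk_option, hI, add_one_eq hκ]
    rw [mk_prod, mk_prod]
    simp only [lift_id]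
    rw [h1, hI, mul_eq_self hκ, mul_eq_self hκ]
  obtain ⟨φ⟩ := Cardinal.eq.1 hφ
  have hen : ∀ S : Set α, ∃ e : I → Option α, #S ≤ κ → ∀ a ∈ S, ∃ b, e b = some a := by
    intro S
    by_cases h : #S ≤ κ
    · obtain ⟨e, he⟩ := exists_enum κ S h
      exact ⟨e, fun _ => he⟩
    · exact ⟨fun _ => none, fun h' => absurd h' h⟩
  choose en hen using hen
  let target : (i : I) → ((j : I) → j < i → Set α) → Option α := fun i c =>
    match (φ i).1 with
    | none => en A (φ i).2.1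
    | some l => if h : l < i then en (⋃ z ∈ c l h, F z) (φ i).2.1 else none
  have hstep : ∀ (i : I) (c : (j : I) → j < i → Set α), ∃ C : Set α,
      Disjoint C (⋃ j, ⋃ hj : j < i, c j hj) ∧ (M.IsCircuit C ∨ C = ∅) ∧
      ((∃ a, target i c = some a ∧ (∃ C, M.IsCircuit C ∧ a ∈ C ∧
        Disjoint C (⋃ j, ⋃ hj : j < i, c j hj))) → ∀ a, target i c = some a → a ∈ C) := by
    intro i c
    by_cases h : ∃ a, target i c = some a ∧ (∃ C, M.IsCircuit C ∧ a ∈ C ∧
        Disjoint C (⋃ j, ⋃ hj : j < i, c j hj))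
    · obtain ⟨a, ha, C, hC, haC, hdis⟩ := h
      refine ⟨C, hdis, Or.inl hC, fun _ a' ha' => ?_⟩
      rw [ha] at ha'
      cases ha'
      exact haC
    · exact ⟨∅, empty_disjoint _, Or.inr rfl, fun h' => absurd h' h⟩
  choose step hs1 hs2 hs3 using hstep
  obtain ⟨c, hc⟩ := exists_wf_rec (ι := I) (β := Set α) step
  have hcdis : ∀ i j : I, j < i → Disjoint (c i) (c j) := by
    intro i j hji
    rw [hc i]
    refine (hs1 i _).mono_right ?_
    exact subset_iUnion₂ (s := fun j (_ : j < i) => c j) j hji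
  have hcdis' : ∀ i j : I, i ≠ j → Disjoint (c i) (c j) := by
    intro i j hij
    rcases lt_or_gt_of_ne hij with h | h
    · exact (hcdis j i h).symm
    · exact hcdis i j h
  have hcirc : ∀ i : I, M.IsCircuit (c i) ∨ c i = ∅ := by
    intro i; rw [hc i]; exact hs2 i _
  -- the final matching
  set 𝒬 : Set (Set α) := {C | (∃ i, c i = C) ∧ M.IsCircuit C} with h𝒬
  have hmatch : IsMatching M 𝒬 := by
    refine ⟨fun C h => h.2, ?_⟩
    rintro _ ⟨⟨i, rfl⟩, _⟩ _ ⟨⟨j, rfl⟩, _⟩ hne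
    exact hcdis' i j (fun h => hne (by rw [h]))
  have hU : ⋃₀ 𝒬 = ⋃ i, c i := by
    apply Subset.antisymm
    · rintro y ⟨_, ⟨⟨i, rfl⟩, _⟩, hy⟩
      exact mem_iUnion.2 ⟨i, hy⟩
    · intro y hy
      obtain ⟨i, hi⟩ := mem_iUnion.1 hy
      rcases hcirc i with h | h
      · exact ⟨c i, ⟨⟨i, rfl⟩, h⟩, hi⟩
      · rw [h] at hi; exact absurd hi (notMem_empty y)
  have hcc : ∀ i, #(c i) ≤ κ := by
    intro i
    rcases hcirc i with h | h
    · exact (hC _ h).le
    · rw [h]; simp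
  -- covering
  have hcov : ∀ i : I, ∀ a ∈ M.E, target i (fun j _ => c j) = some a → a ∈ ⋃ i, c i := by
    intro i a haE hta
    by_cases hmem : a ∈ ⋃ j, ⋃ (_ : j < i), c j
    · obtain ⟨j, _, hj⟩ := mem_iUnion₂.1 hmem
      exact mem_iUnion.2 ⟨j, hj⟩
    · refine mem_iUnion.2 ⟨i, ?_⟩
      rw [hc i]
      refine hs3 i _ ⟨a, hta, ?_⟩ a hta
      set 𝒜 : Set (Set α) := {C | (∃ j, j < i ∧ c j = C) ∧ M.IsCircuit C} with h𝒜
      have h𝒜m : IsMatching M 𝒜 := by
        refine ⟨fun C h => h.2, ?_⟩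
        rintro _ ⟨⟨i, _, rfl⟩, _⟩ _ ⟨⟨j, _, rfl⟩, _⟩ hne
        exact hcdis' i j (fun h => hne (by rw [h]))
      have h𝒜c : #𝒜 < κ := by
        have h1 : #(Iio i) < κ := by
          have := mk_Iio_lt i (by simp [I])
          rwa [mk_ord_toType] at this
        refine lt_of_le_of_lt ?_ h1
        have h2 : 𝒜 ⊆ c '' (Iio i) := by
          rintro _ ⟨⟨j, hj, rfl⟩, _⟩
          exact ⟨j, hj, rfl⟩
        -- universe bookkeeping: `c '' Iio i`
        exact (mk_le_mk_of_subset h2).trans mk_image_le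
      have h𝒜U : ⋃₀ 𝒜 = ⋃ j, ⋃ (_ : j < i), c j := by
        apply Subset.antisymm
        · rintro y ⟨_, ⟨⟨j, hj, rfl⟩, _⟩, hy⟩
          exact mem_iUnion₂.2 ⟨j, hj, hy⟩
        · intro y hy
          obtain ⟨j, hj, hjy⟩ := mem_iUnion₂.1 hy
          rcases hcirc j with h | h
          · exact ⟨c j, ⟨⟨j, hj, rfl⟩, h⟩, hjy⟩
          · rw [h] at hjy; exact absurd hjy (notMem_empty y)
      obtain ⟨C, hC', haC, hdis⟩ := hM 𝒜 h𝒜m h𝒜c a ⟨haE, h𝒜U ▸ hmem⟩
      exact ⟨C, hC', haC, h𝒜U ▸ hdis⟩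
  refine ⟨𝒬, hmatch, ?_, ?_, ?_⟩
  · rintro a ⟨haA, haE⟩
    rw [hU]
    obtain ⟨b, hb⟩ := hen A hA a haA
    refine hcov (φ.symm (none, b, b)) a haE ?_
    simp only [target, Equiv.apply_symm_apply]
    exact hb
  · exact mk_sUnion_le_of_le hκ (by
      have : 𝒬 ⊆ range c := by rintro _ ⟨⟨i, rfl⟩, _⟩; exact mem_range_self i
      exact ((mk_le_mk_of_subset this).trans mk_range_le).trans hI.le) (fun C h => (hC C h.2).le)
  · rintro z hz w ⟨hwF, hwE⟩
    rw [hU] at hz ⊢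
    obtain ⟨l, hl⟩ := mem_iUnion.1 hz
    have hS : #(⋃ z ∈ c l, F z : Set α) ≤ κ := by
      refine (mk_biUnion_le _ _).trans ?_
      calc #(c l) * ⨆ z : c l, #(F z) ≤ κ * κ := by
            gcongr
            · exact hcc l
            · exact ciSup_le' fun z => hF z
        _ = κ := mul_eq_self hκ
    obtain ⟨b, hb⟩ := hen _ hS w (mem_biUnion hl hwF)
    have hex : ∃ d : I, l < φ.symm (some l, b, d) := by
      by_contra hcon
      push Not at hcon
      have hinj : Function.Injective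
          (fun d : I => (⟨φ.symm (some l, b, d), hcon d⟩ : Iic l)) := by
        intro d d' hdd
        have := congrArg Subtype.val hdd
        have := φ.symm.injective this
        simpa using this
      have h1 : #I ≤ #(Iic l) := mk_le_of_injective hinj
      have h2 : #(Iic l) < κ := by
        have h3 : #(Iio l) < κ := by
          have := mk_Iio_lt l (by simp [I])
          rwa [mk_ord_toType] at this
        have h4 : (Iic l : Set I) = insert l (Iio l) := by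
          ext y; simp only [mem_Iic, mem_insert_iff, mem_Iio]; exact le_iff_eq_or_lt
        rw [h4]
        refine mk_insert_le.trans_lt ?_
        exact add_lt_of_lt hκ h3 (one_lt_aleph0.trans_le hκ)
      exact absurd (hI.symm.le.trans h1) (not_le.2 h2)
    obtain ⟨d, hd⟩ := hex
    refine hcov (φ.symm (some l, b, d)) w hwE ?_
    simp only [target, Equiv.apply_symm_apply]
    rw [dif_pos hd]
    exact hb

end Pool.Hhelper49.Kappa
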