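import Mathlib
import Pool.Agent.Hhelper49.Kappa.Claims
import Pool.Agent.Hhelper49.Kappa.Greedy

/-!
# Chains of matchings used for MP_d197f9_co
-/

namespace Pool.Hhelper49.Kappa

open Set Cardinal Matroid

universe u

variable {α : Type u} {M : Matroid α}

lemma delete_sUnion_delete {M : Matroid α} (X Y : Set α) : (M ＼ X) ＼ Y = M ＼ (X ∪ Y) :=
  delete_delete M X Y

/-- The class of matroids for which the induction is run. -/
structure Good (κ : Cardinal.{u}) (M : Matroid α) : Prop where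
  circ : ∀ C, M.IsCircuit C → #C < κ
  nb : ∀ (X : Set α) (lam : Cardinal.{u}), lam.IsRegular → κ < lam →
    ∀ k, #(Nb (M ＼ X) lam k) < lam

lemma Good.delete {κ : Cardinal.{u}} (h : Good κ M) (Y : Set α) : Good κ (M ＼ Y) := by
  refine ⟨fun C hC => h.circ C (delete_isCircuit_iff.1 hC).1, fun X lam h1 h2 k => ?_⟩
  rw [delete_delete]
  exact h.nb _ lam h1 h2 k

lemma Good.nb_self {κ : Cardinal.{u}} (h : Good κ M) {lam : Cardinal.{u}}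
    (h1 : lam.IsRegular) (h2 : κ < lam) (k : α) : #(Nb M lam k) < lam := by
  have := h.nb ∅ lam h1 h2 k
  rwa [delete_empty] at this

/-- The induction statement. -/
def PStar (α : Type u) (κ μ : Cardinal.{u}) : Prop :=
  ∀ M : Matroid α, Good κ M → MatchingExtendable κ M → ∀ A : Set α, #A ≤ μ →
    ∃ 𝒬, IsMatching M 𝒬 ∧ A ∩ M.E ⊆ ⋃₀ 𝒬 ∧ #(⋃₀ 𝒬) ≤ μ ∧ MatchingExtendable κ (M ＼ ⋃₀ 𝒬)

lemma pstar_self {κ : Cardinal.{u}} (hκ : ℵ₀ ≤ κ) : PStar α κ κ := by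
  intro M hG hM A hA
  have hlt : κ < Order.succ κ := Order.lt_succ κ
  have hNb : ∀ z, #(Nb M (Order.succ κ) z) ≤ κ := fun z =>
    Order.lt_succ_iff.1 (hG.nb_self (isRegular_succ hκ) hlt z)
  obtain ⟨𝒬, h1, h2, h3, h4⟩ := greedy hκ hG.circ hM A hA (Nb M (Order.succ κ)) hNb
  refine ⟨𝒬, h1, h2, h3, hM.delete hκ hG.circ le_rfl h3 ?_⟩
  rintro D hD hDc ⟨z, hzD, hz⟩ w hw
  exact h4 z hz ⟨mem_Nb.2 ⟨D, hD, Order.lt_succ_iff.2 hDc, hzD, hw⟩, hD.subset_ground hw⟩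

lemma step {κ μ : Cardinal.{u}} (hμ : ℵ₀ ≤ μ) (hP : PStar α κ μ) (hG : Good κ M)
    {𝒬 : Set (Set α)} (h𝒬 : IsMatching M 𝒬) (hME : MatchingExtendable κ (M ＼ ⋃₀ 𝒬))
    (hc : #(⋃₀ 𝒬) ≤ μ) {A : Set α} (hA : #A ≤ μ) :
    ∃ 𝒬', 𝒬 ⊆ 𝒬' ∧ IsMatching M 𝒬' ∧ MatchingExtendable κ (M ＼ ⋃₀ 𝒬') ∧
      A ∩ M.E ⊆ ⋃₀ 𝒬' ∧ #(⋃₀ 𝒬') ≤ μ := by
  obtain ⟨𝒬₂, h1, h2, h3, h4⟩ := hP (M ＼ ⋃₀ 𝒬) (hG.delete _) hME A hA
  have hcirc : ∀ C ∈ 𝒬₂, M.IsCircuit C ∧ Disjoint C (⋃₀ 𝒬) := fun C h =>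
    delete_isCircuit_iff.1 (h1.1 C h)
  refine ⟨𝒬 ∪ 𝒬₂, subset_union_left, ⟨?_, ?_⟩, ?_, ?_, ?_⟩
  · rintro C (h | h)
    · exact h𝒬.1 C h
    · exact (hcirc C h).1
  · rintro C (h | h) C' (h' | h') hne
    · exact h𝒬.2 h h' hne
    · exact ((hcirc C' h').2.mono_right (subset_sUnion_of_mem h)).symm
    · exact (hcirc C h).2.mono_right (subset_sUnion_of_mem h')
    · exact h1.2 h h' hne
  · rwa [sUnion_union, ← delete_delete]
  · rintro a ⟨haA, haE⟩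
    rw [sUnion_union]
    by_cases h : a ∈ ⋃₀ 𝒬
    · exact Or.inl h
    · exact Or.inr (h2 ⟨haA, haE, h⟩)
  · rw [sUnion_union]
    exact (mk_union_le _ _).trans (add_le_of_le hμ hc h3)

/-- the union of a chain of matchings is a matching -/
lemma isMatching_biUnion {ι : Type u} [LinearOrder ι] (J : Set ι) (t : ι → Set (Set α))
    (ht : ∀ j ∈ J, IsMatching M (t j)) (hmono : ∀ j ∈ J, ∀ l ∈ J, j < l → t j ⊆ t l) :
    IsMatching M (⋃ j ∈ J, t j) := by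
  refine ⟨?_, ?_⟩
  · intro C hC
    obtain ⟨j, hj, hCj⟩ := mem_iUnion₂.1 hC
    exact (ht j hj).1 C hCj
  · intro C hC C' hC' hne
    obtain ⟨j, hj, hCj⟩ := mem_iUnion₂.1 hC
    obtain ⟨l, hl, hCl⟩ := mem_iUnion₂.1 hC'
    rcases lt_trichotomy j l with h | h | h
    · exact (ht l hl).2 (hmono j hj l hl h hCj) hCl hne
    · subst h; exact (ht j hj).2 hCj hCl hne
    · exact (ht j hj).2 hCj (hmono l hl j hj h hCl) hne

theorem exists_chain {ι : Type u} [LinearOrder ι] [WellFoundedLT ι] {κ : Cardinal.{u}}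
    (hM : MatchingExtendable κ M)
    (A' : ι → Set α → Set α) (Sm Sz : ι → Set α → Prop)
    (h1 : ∀ i 𝒬, IsMatching M 𝒬 → Sm i (⋃₀ 𝒬) → MatchingExtendable κ (M ＼ ⋃₀ 𝒬) →
      ∃ 𝒬', 𝒬 ⊆ 𝒬' ∧ IsMatching M 𝒬' ∧ MatchingExtendable κ (M ＼ ⋃₀ 𝒬') ∧
        A' i (⋃₀ 𝒬) ∩ M.E ⊆ ⋃₀ 𝒬' ∧ Sz i (⋃₀ 𝒬'))
    (h2 : ∀ i, ∀ T : ι → Set α, (∀ j < i, Sz j (T j)) → Sm i (⋃ j ∈ Iio i, T j))
    (h3 : ∀ i, ∀ S T : ι → Set α, (∃ j, j < i) → (∀ j < i, ∃ l, j < l ∧ l < i) →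
      (∀ j < i, Sz j (T j)) → (∀ j l, j < l → l < i → T j ⊆ S l) →
      (∀ j < i, A' j (S j) ∩ M.E ⊆ T j) → MatchingExtendable κ (M ＼ ⋃ j ∈ Iio i, T j)) :
    ∃ (S T : ι → Set α) (t : ι → Set (Set α)), (∀ i, ⋃₀ (t i) = T i) ∧
      (∀ i, IsMatching M (t i)) ∧ (∀ i j, i < j → t i ⊆ t j) ∧ (∀ i, Sz i (T i)) ∧
      (∀ i j, i < j → T i ⊆ S j) ∧ (∀ i, A' i (S i) ∩ M.E ⊆ T i) := by
  classical
  have hg : ∀ i : ι, ∀ 𝒬 : Set (Set α), ∃ 𝒬' : Set (Set α),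
      (IsMatching M 𝒬 → Sm i (⋃₀ 𝒬) → MatchingExtendable κ (M ＼ ⋃₀ 𝒬) →
        𝒬 ⊆ 𝒬' ∧ IsMatching M 𝒬' ∧ MatchingExtendable κ (M ＼ ⋃₀ 𝒬') ∧
        A' i (⋃₀ 𝒬) ∩ M.E ⊆ ⋃₀ 𝒬' ∧ Sz i (⋃₀ 𝒬')) := by
    intro i 𝒬
    by_cases h : IsMatching M 𝒬 ∧ Sm i (⋃₀ 𝒬) ∧ MatchingExtendable κ (M ＼ ⋃₀ 𝒬)
    · obtain ⟨𝒬', h'⟩ := h1 i 𝒬 h.1 h.2.1 h.2.2
      exact ⟨𝒬', fun _ _ _ => h'⟩
    · exact ⟨∅, fun a b c => absurd ⟨a, b, c⟩ h⟩
  choose g hg using hg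
  obtain ⟨t, ht⟩ := exists_wf_rec (ι := ι) (β := Set (Set α))
    (fun i ih => g i (⋃ j, ⋃ hj : j < i, ih j hj))
  have ht' : ∀ i, t i = g i (⋃ j ∈ Iio i, t j) := ht
  have hinv : ∀ i, (⋃ j ∈ Iio i, t j) ⊆ t i ∧ IsMatching M (t i) ∧
      MatchingExtendable κ (M ＼ ⋃₀ (t i)) ∧
      A' i (⋃₀ (⋃ j ∈ Iio i, t j)) ∩ M.E ⊆ ⋃₀ (t i) ∧ Sz i (⋃₀ (t i)) := by
    intro i
    induction i using WellFoundedLT.induction with
    | ind i ih =>
      have hsU : ∀ l, ⋃₀ (⋃ j ∈ Iio l, t j) = ⋃ j ∈ Iio l, ⋃₀ (t j) := by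
        intro l
        ext y
        simp only [mem_sUnion, mem_iUnion, exists_prop]
        constructor
        · rintro ⟨C, ⟨j, hj, hC⟩, hy⟩; exact ⟨j, hj, C, hC, hy⟩
        · rintro ⟨j, hj, C, hC, hy⟩; exact ⟨C, ⟨j, hj, hC⟩, hy⟩
      have hmono : ∀ j ∈ Iio i, ∀ l ∈ Iio i, j < l → t j ⊆ t l := by
        intro j _ l hl hjl
        exact (subset_biUnion_of_mem (u := fun j => t j) (show j ∈ Iio l from hjl)).trans
          (ih l hl).1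
      have ha : IsMatching M (⋃ j ∈ Iio i, t j) :=
        isMatching_biUnion (Iio i) t (fun j hj => (ih j hj).2.1) hmono
      have hb : Sm i (⋃₀ (⋃ j ∈ Iio i, t j)) := by
        rw [hsU]
        exact h2 i _ fun j hj => (ih j hj).2.2.2.2
      have hc : MatchingExtendable κ (M ＼ ⋃₀ (⋃ j ∈ Iio i, t j)) := by
        by_cases hmin : ∃ j, j < i
        · by_cases hlim : ∀ j < i, ∃ l, j < l ∧ l < i
          · rw [hsU]
            refine h3 i (fun l => ⋃₀ (⋃ j ∈ Iio l, t j)) (fun j => ⋃₀ (t j)) hmin hlim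
              (fun j hj => (ih j hj).2.2.2.2) ?_ (fun j hj => (ih j hj).2.2.2.1)
            intro j l hjl _
            show ⋃₀ t j ⊆ ⋃₀ (⋃ j ∈ Iio l, t j)
            rw [hsU]
            exact subset_biUnion_of_mem (u := fun j => ⋃₀ (t j)) (show j ∈ Iio l from hjl)
          · push Not at hlim
            obtain ⟨j, hji, hj⟩ := hlim
            have hEq : (⋃ j ∈ Iio i, t j) = t j := by
              apply Subset.antisymm
              · refine iUnion₂_subset fun l hl => ?_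
                have hl' : l < i := hl
                rcases lt_trichotomy l j with h | h | h
                · exact hmono l hl j hji h
                · rw [h]
                · exact absurd hl' (not_lt.2 (hj l h))
              · exact subset_biUnion_of_mem (u := fun j => t j) (show j ∈ Iio i from hji)
            rw [hEq]
            exact (ih j hji).2.2.1
        · have hEq : (⋃ j ∈ Iio i, t j) = ∅ := by
            rw [eq_empty_iff_forall_notMem]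
            intro y hy
            obtain ⟨j, hj, _⟩ := mem_iUnion₂.1 hy
            exact hmin ⟨j, hj⟩
          rw [hEq, sUnion_empty, delete_empty]
          exact hM
      have := hg i _ ha hb hc
      rw [← ht' i] at this
      exact this
  refine ⟨fun l => ⋃₀ (⋃ j ∈ Iio l, t j), fun j => ⋃₀ (t j), t, fun _ => rfl,
    fun i => (hinv i).2.1, ?_, fun i => (hinv i).2.2.2.2, ?_, fun i => (hinv i).2.2.2.1⟩
  · intro i j hij
    exact (subset_biUnion_of_mem (u := fun j => t j) (show i ∈ Iio j from hij)).trans (hinv j).1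
  · intro i j hij
    exact sUnion_subset_sUnion (subset_biUnion_of_mem (u := fun j => t j) (show i ∈ Iio j from hij))

end Pool.Hhelper49.Kappa
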