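import Mathlib
import Pool.Agent.Hhelper49.Kappa.Chain

/-!
# The induction on the size used for MP_d197f9_co
-/

namespace Pool.Hhelper49.Kappa

open Set Cardinal Matroid

universe u

variable {α : Type u} {M : Matroid α}

lemma mk_Iio_ord_lt {c : Cardinal.{u}} (i : c.ord.ToType) : #(Iio i) < c := by
  have := mk_Iio_lt i (by simp)
  rwa [mk_ord_toType] at this

lemma exists_gt_ord {c : Cardinal.{u}} (hc : ℵ₀ ≤ c) (i j : c.ord.ToType) :
    ∃ l, i < l ∧ j < l := by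
  by_contra hcon
  push Not at hcon
  have h1 : (univ : Set c.ord.ToType) ⊆ insert (max i j) (Iio (max i j)) := by
    intro l _
    have h : l ≤ max i j := by
      by_contra h
      rw [not_le, max_lt_iff] at h
      exact absurd h.2 (not_lt.2 (hcon l h.1))
    rcases h.eq_or_lt with h | h
    · exact Or.inl h
    · exact Or.inr h
  have h2 : #(univ : Set c.ord.ToType) = c := by rw [mk_univ, mk_ord_toType]
  have h3 := mk_le_mk_of_subset h1
  rw [h2] at h3
  have h4 : #(insert (max i j) (Iio (max i j)) : Set c.ord.ToType) < c :=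
    mk_insert_le.trans_lt (add_lt_of_lt hc (mk_Iio_ord_lt _) (one_lt_aleph0.trans_le hc))
  exact absurd h3 (not_le.2 h4)

lemma mk_some_le (o : Option α) : #({a | o = some a} : Set α) ≤ 1 := by
  rw [mk_le_one_iff_set_subsingleton]
  intro a ha b hb
  have ha' : o = some a := ha
  have hb' : o = some b := hb
  rw [ha'] at hb'
  exact Option.some.inj hb'

theorem pstar_regular {κ lam : Cardinal.{u}} (hκ : ℵ₀ ≤ κ) (hlam : lam.IsRegular)
    (hlt : κ < lam) (hP : ∀ μ, κ ≤ μ → μ < lam → PStar α κ μ) : PStar α κ lam := by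
  classical
  intro M hG hM A hA
  let ι := lam.ord.ToType
  have hinf := hlam.aleph0_le
  have hlt' : κ < Order.succ lam := hlt.trans (Order.lt_succ lam)
  obtain ⟨eA, heA⟩ := exists_enum lam A hA
  have heN : ∀ z, ∃ e : ι → Option α, ∀ a ∈ Nb M (Order.succ lam) z, ∃ b, e b = some a := fun z =>
    exists_enum lam _ (Order.lt_succ_iff.1 (hG.nb_self (isRegular_succ hinf) hlt' z))
  choose eN heN using heN
  let A' : ι → Set α → Set α := fun i S =>
    (⋃ j ∈ Iio i, {a | eA j = some a}) ∪ (⋃ z ∈ S, Nb M lam z) ∪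
      (⋃ z ∈ S, ⋃ j ∈ Iio i, {w | eN z j = some w})
  have h1lt : (1 : Cardinal.{u}) < lam := one_lt_aleph0.trans_le hinf
  have hA' : ∀ i (S : Set α), #S < lam → #(A' i S) < lam := by
    intro i S hS
    refine mk_union_lt hinf (mk_union_lt hinf ?_ ?_) ?_
    · exact mk_biUnion_lt_of_isRegular hlam (mk_Iio_ord_lt i) _
        fun j _ => (mk_some_le _).trans_lt h1lt
    · exact mk_biUnion_lt_of_isRegular hlam hS _ fun z _ => hG.nb_self hlam hlt z
    · exact mk_biUnion_lt_of_isRegular hlam hS _ fun z _ =>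
        mk_biUnion_lt_of_isRegular hlam (mk_Iio_ord_lt i) _
        fun j _ => (mk_some_le _).trans_lt h1lt
  obtain ⟨S, T, t, ht1, ht2, ht3, ht4, ht5, ht6⟩ := exists_chain (ι := ι) hM A'
    (fun _ S => #S < lam) (fun _ S => #S < lam) (by
      intro i 𝒬 h1 h2 h3
      have hμ : max κ (max #(⋃₀ 𝒬) #(A' i (⋃₀ 𝒬))) < lam :=
        max_lt hlt (max_lt h2 (hA' i _ h2))
      obtain ⟨𝒬', h1', h2', h3', h4', h5'⟩ := step (hκ.trans (le_max_left _ _))
        (hP _ (le_max_left _ _) hμ) hG h1 h3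
        ((le_max_left _ _).trans (le_max_right _ _)) (A := A' i (⋃₀ 𝒬))
        ((le_max_right _ _).trans (le_max_right _ _))
      exact ⟨𝒬', h1', h2', h3', h4', h5'.trans_lt hμ⟩)
    (by
      intro i T hT
      exact mk_biUnion_lt_of_isRegular hlam (mk_Iio_ord_lt i) _ fun j hj => hT j hj)
    (by
      intro i S T hne hlim hSz hTS hAT
      have hXc : #(⋃ j ∈ Iio i, T j : Set α) < lam :=
        mk_biUnion_lt_of_isRegular hlam (mk_Iio_ord_lt i) _ fun j hj => hSz j hj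
      refine hM.delete hκ hG.circ (le_max_left κ #(⋃ j ∈ Iio i, T j : Set α))
        (le_max_right _ _) ?_
      rintro D hD hDc ⟨z, hzD, hz⟩ w hw
      obtain ⟨j, hj, hzj⟩ := mem_iUnion₂.1 hz
      obtain ⟨l, hjl, hli⟩ := hlim j hj
      have hzS : z ∈ S l := hTS j l hjl hli hzj
      refine mem_biUnion (show l ∈ Iio i from hli) (hAT l hli ⟨?_, hD.subset_ground hw⟩)
      refine Or.inl (Or.inr (mem_biUnion hzS ?_))
      exact mem_Nb.2 ⟨D, hD, hDc.trans_lt (max_lt hlt hXc), hzD, hw⟩)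
  have hU : ⋃₀ (⋃ j ∈ (univ : Set ι), t j) = ⋃ j, T j := by
    ext y
    simp only [mem_sUnion, mem_iUnion, exists_prop, mem_univ, true_and]
    constructor
    · rintro ⟨C, ⟨j, hC⟩, hy⟩
      exact ⟨j, ht1 j ▸ ⟨C, hC, hy⟩⟩
    · rintro ⟨j, hj⟩
      rw [← ht1 j] at hj
      obtain ⟨C, hC, hy⟩ := hj
      exact ⟨C, ⟨j, hC⟩, hy⟩
  have hUc : #(⋃ j, T j : Set α) ≤ lam := by
    refine (mk_iUnion_le _).trans ?_
    calc #ι * ⨆ i, #(T i) ≤ lam * lam := by
          gcongr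
          · exact (mk_ord_toType lam).le
          · exact ciSup_le' fun i => (ht4 i).le
      _ = lam := mul_eq_self hinf
  refine ⟨⋃ j ∈ (univ : Set ι), t j, isMatching_biUnion univ t (fun j _ => ht2 j)
    (fun j _ l _ h => ht3 j l h), ?_, ?_, ?_⟩
  · rintro a ⟨haA, haE⟩
    rw [hU]
    obtain ⟨b, hb⟩ := heA a haA
    obtain ⟨l, hbl, _⟩ := exists_gt_ord hinf b b
    refine mem_iUnion.2 ⟨l, ht6 l ⟨?_, haE⟩⟩
    exact Or.inl (Or.inl (mem_biUnion (show b ∈ Iio l from hbl) hb))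
  · rw [hU]; exact hUc
  · rw [hU]
    refine hM.delete hκ hG.circ hlt.le hUc ?_
    rintro D hD hDc ⟨z, hzD, hz⟩ w hw
    obtain ⟨j, hzj⟩ := mem_iUnion.1 hz
    obtain ⟨b, hb⟩ := heN z w (mem_Nb.2 ⟨D, hD, Order.lt_succ_iff.2 hDc, hzD, hw⟩)
    obtain ⟨l, hjl, hbl⟩ := exists_gt_ord hinf j b
    refine mem_iUnion.2 ⟨l, ht6 l ⟨?_, hD.subset_ground hw⟩⟩
    exact Or.inr (mem_biUnion (ht5 j l hjl hzj) (mem_biUnion (show b ∈ Iio l from hbl) hb))

/-- a rank function on a set -/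
lemma exists_rank (S : Set α) : ∃ r : α → Ordinal.{u}, InjOn r S ∧ ∀ w ∈ S, r w < (#S).ord := by
  classical
  have h : #S = #(#S).ord.ToType := by rw [mk_ord_toType]
  obtain ⟨e⟩ := Cardinal.eq.1 h
  refine ⟨fun w => if h : w ∈ S then Ordinal.typein (α := (#S).ord.ToType) (· < ·) (e ⟨w, h⟩)
    else 0, ?_, ?_⟩
  · intro w hw w' hw' heq
    simp only [hw, hw', dif_pos] at heq
    have := Ordinal.typein_injective _ heq
    have := e.injective this
    exact congrArg Subtype.val this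
  · intro w hw
    simp only [hw, dif_pos]
    exact Ordinal.typein_lt_self _

lemma mk_rank_lt {S : Set α} {r : α → Ordinal.{u}} (hr : InjOn r S) (c : Cardinal.{u}) :
    #({w ∈ S | r w < c.ord} : Set α) ≤ c := by
  have hinj : Function.Injective (fun w : ({w ∈ S | r w < c.ord} : Set α) =>
      (⟨r w, w.2.2⟩ : Iio c.ord)) := by
    intro w w' h
    exact Subtype.ext (hr w.2.1 w'.2.1 (congrArg Subtype.val h))
  have h := lift_mk_le_lift_mk_of_injective hinj
  rw [mk_Iio_ordinal, card_ord] at h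
  simpa using h

/-- cofinal sequence of cardinals -/
lemma exists_lamf {κ lam : Cardinal.{u}} (hκ : ℵ₀ ≤ κ) (hlt : κ < lam) (hs : ¬ lam.IsRegular) :
    ∃ lamf : (lam.ord.cof).ord.ToType → Cardinal.{u}, Monotone lamf ∧ (∀ i, κ ≤ lamf i) ∧
      (∀ i, lam.ord.cof ≤ lamf i) ∧ (∀ i, lamf i < lam) ∧ ∀ μ < lam, ∃ i, μ < lamf i := by
  classical
  have hinf : ℵ₀ ≤ lam := hκ.trans hlt.le
  have hcof : lam.ord.cof < lam := by
    by_contra h
    exact hs ⟨hinf, not_lt.1 h⟩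
  obtain ⟨s, hs1, hs2⟩ := Order.exists_cof_eq lam.ord.ToType
  rw [Ordinal.cof_toType] at hs2
  have h : #(lam.ord.cof).ord.ToType = #s := by rw [mk_ord_toType, hs2]
  obtain ⟨e⟩ := Cardinal.eq.1 h
  let f : (lam.ord.cof).ord.ToType → Cardinal.{u} := fun i =>
    (Ordinal.typein (α := lam.ord.ToType) (· < ·) (e i)).card
  have hf : ∀ i, f i < lam := fun i => lt_ord.1 (Ordinal.typein_lt_self _)
  let g : (lam.ord.cof).ord.ToType → Cardinal.{u} := fun i =>
    ⨆ j : (insert i (Iio i) : Set _), f j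
  have hg : ∀ i, g i < lam := by
    intro i
    refine iSup_lt_of_lt_cof_ord ?_ fun j => hf j
    have hδ : ℵ₀ ≤ lam.ord.cof := by
      rw [Ordinal.aleph0_le_cof_iff, Ordinal.one_lt_cof_iff]
      exact isSuccLimit_ord hinf
    exact mk_insert_le.trans_lt (add_lt_of_lt hδ (mk_Iio_ord_lt _) (one_lt_aleph0.trans_le hδ))
  have hle : ∀ i j, j ∈ (insert i (Iio i) : Set _) → f j ≤ g i := by
    intro i j hj
    exact le_ciSup (f := fun j : (insert i (Iio i) : Set _) => f j) (bddAbove_of_small) ⟨j, hj⟩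
  refine ⟨fun i => max κ (max lam.ord.cof (g i)), ?_, fun i => le_max_left _ _,
    fun i => (le_max_left _ _).trans (le_max_right _ _), fun i => max_lt hlt (max_lt hcof (hg i)),
    ?_⟩
  · intro i j hij
    refine max_le_max le_rfl (max_le_max le_rfl ?_)
    refine ciSup_le' ?_
    rintro ⟨l, hl⟩
    refine hle j l ?_
    rcases hl with hl | hl
    · rw [hl]
      rcases hij.eq_or_lt with h | h
      · exact Or.inl h
      · exact Or.inr h
    · exact Or.inr (lt_of_lt_of_le hl hij)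
  · intro μ hμ
    have hsucc : Order.succ μ < lam := by
      rcases lt_or_ge μ ℵ₀ with h | h
      · exact (isSuccLimit_aleph0.succ_lt h).trans_le hinf
      · refine lt_of_le_of_ne (Order.succ_le_of_lt hμ) ?_
        intro heq
        exact hs (heq ▸ isRegular_succ h)
    have hord : (Order.succ μ).ord < lam.ord := ord_lt_ord.2 hsucc
    have hty : (Order.succ μ).ord < Ordinal.type (α := lam.ord.ToType) (· < ·) := by
      rwa [Ordinal.type_toType]
    obtain ⟨b, hb, hxb⟩ := hs1 (Ordinal.enum (α := lam.ord.ToType) (· < ·) ⟨_, hty⟩)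
    refine ⟨e.symm ⟨b, hb⟩, ?_⟩
    have h1 : (Order.succ μ).ord ≤ Ordinal.typein (α := lam.ord.ToType) (· < ·) b := by
      by_contra h
      rw [not_le] at h
      have h0 := Ordinal.typein_enum (α := lam.ord.ToType) (· < ·) hty
      rw [← h0, Ordinal.typein_lt_typein] at h
      exact absurd hxb (not_le.2 h)
    have h2 : Order.succ μ ≤ f (e.symm ⟨b, hb⟩) := by
      simp only [f, Equiv.apply_symm_apply]
      exact ord_le.1 h1
    calc μ < Order.succ μ := Order.lt_succ μ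
      _ ≤ f (e.symm ⟨b, hb⟩) := h2
      _ ≤ g (e.symm ⟨b, hb⟩) := hle _ _ (Or.inl rfl)
      _ ≤ _ := (le_max_right _ _).trans (le_max_right _ _)

theorem pstar_singular {κ lam : Cardinal.{u}} (hκ : ℵ₀ ≤ κ) (hs : ¬ lam.IsRegular)
    (hlt : κ < lam) (hP : ∀ μ, κ ≤ μ → μ < lam → PStar α κ μ) : PStar α κ lam := by
  classical
  intro M hG hM A hA
  have hinf : ℵ₀ ≤ lam := hκ.trans hlt.le
  have hex := exists_lamf hκ hlt hs
  obtain ⟨δ, hδdef⟩ : ∃ δ : Cardinal.{u}, δ = lam.ord.cof := ⟨_, rfl⟩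
  rw [← hδdef] at hex
  obtain ⟨lamf, hmono, hκf, hδf, hflt, hcofin⟩ := hex
  have hδinf : ℵ₀ ≤ δ := by
    rw [hδdef, Ordinal.aleph0_le_cof_iff, Ordinal.one_lt_cof_iff]
    exact isSuccLimit_ord hinf
  let ι := δ.ord.ToType
  have hιc : #ι = δ := mk_ord_toType δ
  let Lam : ι → Cardinal.{u} := fun i => ⨆ j : Iio i, lamf j
  have hLamle : ∀ i j, j < i → lamf j ≤ Lam i := fun i j hj =>
    le_ciSup (f := fun j : Iio i => lamf j) (bddAbove_of_small) ⟨j, hj⟩
  have hfinf : ∀ i, ℵ₀ ≤ lamf i := fun i => hκ.trans (hκf i)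
  -- rank functions
  have hr : ∀ S : Set α, ∃ r : α → Ordinal.{u}, InjOn r S ∧ ∀ w ∈ S, r w < (#S).ord :=
    fun S => exists_rank S
  choose r hr1 hr2 using hr
  let piece : Set α → ι → Set α := fun S i => {w ∈ S | r S w < (lamf i).ord}
  have hpiece : ∀ S i, #(piece S i) ≤ lamf i := fun S i => mk_rank_lt (hr1 S) (lamf i)
  have hpmono : ∀ S i j, i ≤ j → piece S i ⊆ piece S j := by
    rintro S i j hij w ⟨hw, hlt⟩
    exact ⟨hw, hlt.trans_le (ord_le_ord.2 (hmono hij))⟩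
  let A' : ι → Set α → Set α := fun i S =>
    (piece A i ∪ (⋃ z ∈ S, ⋃ l : ι, piece (Nb M (Order.succ (Lam l)) z) i)) ∪
      (⋃ z ∈ S, piece (Nb M (Order.succ lam) z) i)
  have hmulle : ∀ {a b c : Cardinal.{u}}, ℵ₀ ≤ c → a ≤ c → b ≤ c → a * b ≤ c := by
    intro a b c hc ha hb
    calc a * b ≤ c * c := by gcongr
      _ = c := mul_eq_self hc
  have hA' : ∀ i (S : Set α), #S ≤ lamf i → #(A' i S) ≤ lamf i := by
    intro i S hS
    refine (mk_union_le _ _).trans (add_le_of_le (hfinf i) ?_ ?_)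
    · refine (mk_union_le _ _).trans (add_le_of_le (hfinf i) (hpiece _ _) ?_)
      refine (mk_biUnion_le _ _).trans (hmulle (hfinf i) hS (ciSup_le' fun z => ?_))
      refine (mk_iUnion_le _).trans (hmulle (hfinf i) ?_ (ciSup_le' fun l => hpiece _ _))
      rw [hιc]; exact hδf i
    · exact (mk_biUnion_le _ _).trans (hmulle (hfinf i) hS (ciSup_le' fun z => hpiece _ _))
  have hIio : ∀ i : ι, #(Iio i) ≤ δ := fun i => (mk_Iio_ord_lt i).le
  obtain ⟨S, T, t, ht1, ht2, ht3, ht4, ht5, ht6⟩ := exists_chain (ι := ι) hM A'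
    (fun i S => #S ≤ lamf i) (fun i S => #S ≤ lamf i) (by
      intro i 𝒬 h1 h2 h3
      exact step (hfinf i) (hP _ (hκf i) (hflt i)) hG h1 h3 h2 (hA' i _ h2) |>.imp
        fun 𝒬' h => ⟨h.1, h.2.1, h.2.2.1, h.2.2.2.1, h.2.2.2.2⟩)
    (by
      intro i T hT
      refine (mk_biUnion_le _ _).trans (hmulle (hfinf i) ((hIio i).trans (hδf i))
        (ciSup_le' ?_))
      rintro ⟨j, hj⟩
      exact (hT j hj).trans (hmono (le_of_lt hj)))
    (by
      rintro i S T ⟨j₀, hj₀⟩ hlim hSz hTS hAT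
      have hκL : κ ≤ Lam i := (hκf j₀).trans (hLamle i j₀ hj₀)
      have hδL : δ ≤ Lam i := (hδf j₀).trans (hLamle i j₀ hj₀)
      have hLinf : ℵ₀ ≤ Lam i := hκ.trans hκL
      have hXc : #(⋃ j ∈ Iio i, T j : Set α) ≤ Lam i := by
        refine (mk_biUnion_le _ _).trans (hmulle hLinf ((hIio i).trans hδL) (ciSup_le' ?_))
        rintro ⟨j, hj⟩
        exact (hSz j hj).trans (hLamle i j hj)
      refine hM.delete hκ hG.circ hκL hXc ?_
      rintro D hD hDc ⟨z, hzD, hz⟩ w hw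
      obtain ⟨j₁, hj₁, hzj⟩ := mem_iUnion₂.1 hz
      have hwN : w ∈ Nb M (Order.succ (Lam i)) z :=
        mem_Nb.2 ⟨D, hD, Order.lt_succ_iff.2 hDc, hzD, hw⟩
      have hNc : #(Nb M (Order.succ (Lam i)) z) ≤ Lam i :=
        Order.lt_succ_iff.1 (hG.nb_self (isRegular_succ hLinf)
          (hκL.trans_lt (Order.lt_succ _)) z)
      have hrw : (r (Nb M (Order.succ (Lam i)) z) w).card < Lam i :=
        lt_ord.1 ((hr2 _ w hwN).trans_le (ord_le_ord.2 hNc))
      have : Nonempty (Iio i) := ⟨⟨j₀, hj₀⟩⟩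
      obtain ⟨⟨j₂, hj₂⟩, hj₂'⟩ := exists_lt_of_lt_ciSup hrw
      have hmax : max j₁ j₂ < i := max_lt hj₁ hj₂
      obtain ⟨l, hl1, hl2⟩ := hlim _ hmax
      have hzS : z ∈ S l := hTS j₁ l ((le_max_left _ _).trans_lt hl1) hl2 hzj
      refine mem_biUnion (show l ∈ Iio i from hl2) (hAT l hl2 ⟨?_, hD.subset_ground hw⟩)
      refine Or.inl (Or.inr (mem_biUnion hzS (mem_iUnion.2 ⟨i, ?_⟩)))
      refine hpmono _ j₂ l ((le_max_right _ _).trans hl1.le) ⟨hwN, lt_ord.2 hj₂'⟩)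
  have hU : ⋃₀ (⋃ j ∈ (univ : Set ι), t j) = ⋃ j, T j := by
    ext y
    simp only [mem_sUnion, mem_iUnion, exists_prop, mem_univ, true_and]
    constructor
    · rintro ⟨C, ⟨j, hC⟩, hy⟩
      exact ⟨j, ht1 j ▸ ⟨C, hC, hy⟩⟩
    · rintro ⟨j, hj⟩
      rw [← ht1 j] at hj
      obtain ⟨C, hC, hy⟩ := hj
      exact ⟨C, ⟨j, hC⟩, hy⟩
  have hδlam : δ ≤ lam := hδdef ▸ Ordinal.cof_ord_le lam
  have hUc : #(⋃ j, T j : Set α) ≤ lam := by
    refine (mk_iUnion_le _).trans (hmulle hinf ?_ (ciSup_le' fun i => (ht4 i).trans (hflt i).le))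
    rw [hιc]; exact hδlam
  refine ⟨⋃ j ∈ (univ : Set ι), t j, isMatching_biUnion univ t (fun j _ => ht2 j)
    (fun j _ l _ h => ht3 j l h), ?_, ?_, ?_⟩
  · rintro a ⟨haA, haE⟩
    rw [hU]
    have : (r A a).card < lam := lt_ord.1 ((hr2 A a haA).trans_le (ord_le_ord.2 hA))
    obtain ⟨i, hi⟩ := hcofin _ this
    refine mem_iUnion.2 ⟨i, ht6 i ⟨?_, haE⟩⟩
    exact Or.inl (Or.inl ⟨haA, lt_ord.2 hi⟩)
  · rw [hU]; exact hUc
  · rw [hU]
    refine hM.delete hκ hG.circ hlt.le hUc ?_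
    rintro D hD hDc ⟨z, hzD, hz⟩ w hw
    obtain ⟨j, hzj⟩ := mem_iUnion.1 hz
    have hwN : w ∈ Nb M (Order.succ lam) z :=
      mem_Nb.2 ⟨D, hD, Order.lt_succ_iff.2 hDc, hzD, hw⟩
    have hNc : #(Nb M (Order.succ lam) z) ≤ lam :=
      Order.lt_succ_iff.1 (hG.nb_self (isRegular_succ hinf) (hlt.trans (Order.lt_succ _)) z)
    have hrw : (r (Nb M (Order.succ lam) z) w).card < lam :=
      lt_ord.1 ((hr2 _ w hwN).trans_le (ord_le_ord.2 hNc))
    obtain ⟨b, hb⟩ := hcofin _ hrw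
    obtain ⟨l, hjl, hbl⟩ := exists_gt_ord hδinf j b
    refine mem_iUnion.2 ⟨l, ht6 l ⟨?_, hD.subset_ground hw⟩⟩
    exact Or.inr (mem_biUnion (ht5 j l hjl hzj) (hpmono _ b l hbl.le ⟨hwN, lt_ord.2 hb⟩))

/-- The induction statement holds for all `μ ≥ κ`. -/
theorem pstar_all {κ : Cardinal.{u}} (hκ : ℵ₀ ≤ κ) (μ : Cardinal.{u}) (h : κ ≤ μ) :
    PStar α κ μ := by
  induction μ using WellFoundedLT.induction with
  | ind μ ih =>
    rcases h.eq_or_lt with h | h
    · exact h ▸ pstar_self hκ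
    · by_cases hreg : μ.IsRegular
      · exact pstar_regular hκ hreg h fun ν h1 h2 => ih ν h2 h1
      · exact pstar_singular hκ hreg h fun ν h1 h2 => ih ν h2 h1

/-- Perfect matchings exist in good `κ`-matching extendable matroids. -/
theorem exists_perfect_of_good {κ : Cardinal.{u}} (hκ : ℵ₀ ≤ κ) (hG : Good κ M)
    (hM : MatchingExtendable κ M) : ∃ 𝒬, IsPerfectMatching M 𝒬 := by
  obtain ⟨𝒬, h1, h2, _, _⟩ := pstar_all hκ (max κ #M.E) (le_max_left _ _) M hG hM M.E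
    (le_max_right _ _)
  refine ⟨𝒬, h1, ?_⟩
  apply Subset.antisymm
  · exact sUnion_subset fun C hC => (h1.1 C hC).subset_ground
  · exact fun x hx => h2 ⟨hx, hx⟩

end Pool.Hhelper49.Kappa
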