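import Mathlib
import Pool.Agent.Hhelper49.Kappa.Induct

/-!
# Few traces of cocircuits on circuits (used for MP_d197f9_co)
-/

namespace Pool.Hhelper49.Kappa

open Set Cardinal Matroid

universe u

variable {α : Type u} {M : Matroid α}

/-- The sets `C ∩ D` with `D` a cocircuit of `M`. -/
def traces (M : Matroid α) (C : Set α) : Set (Set α) := {Z | ∃ D, M.IsCocircuit D ∧ C ∩ D = Z}

/-- cocircuits of a deletion come from cocircuits -/
lemma traces_delete {X C : Set α} (hC : Disjoint C X) :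
    traces (M ＼ X) C ⊆ traces M C := by
  rintro Z ⟨D, hD, rfl⟩
  have hD' : (M✶ ／ X).IsCircuit D := by rw [← dual_delete]; exact hD
  obtain ⟨D', h1, h2, h3⟩ := hD'.exists_subset_isCircuit_of_contract
  refine ⟨D', h1, ?_⟩
  apply Subset.antisymm
  · rintro y ⟨hyC, hyD⟩
    rcases h3 hyD with h | h
    · exact ⟨hyC, h⟩
    · exact absurd ⟨hyC, h⟩ (fun h' => hC.le_bot h')
  · rintro y ⟨hyC, hyD⟩
    exact ⟨hyC, h2 hyD⟩

/-- If all circuits have size less than `κ` and every circuit has at most `κ` traces of cocircuits,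
then for each `k` the union of the cocircuits of size `≤ κ` through `k` has size `≤ κ`. -/
theorem mk_Nb_lt_of_few {κ : Cardinal.{u}} (hκ : ℵ₀ ≤ κ) (hC : ∀ C, M.IsCircuit C → #C < κ)
    (hT : ∀ C, M.IsCircuit C → #(traces M C) ≤ κ) (k : α) :
    #(Nb M (Order.succ κ) k) < Order.succ κ := by
  classical
  set lam : Cardinal.{u} := Order.succ κ with hlamdef
  have hlam : lam.IsRegular := isRegular_succ hκ
  have hlt : κ < lam := Order.lt_succ κ
  have hle : ∀ {c : Cardinal.{u}}, c < lam ↔ c ≤ κ := Order.lt_succ_iff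
  by_contra hcon
  rw [not_lt] at hcon
  let τ : Type u := {t : Set α × Set α × α // M.IsCircuit t.1 ∧ M.IsCocircuit t.2.1 ∧
    #t.2.1 < lam ∧ t.1 ∩ t.2.1 = {k, t.2.2} ∧ k ≠ t.2.2}
  let x : τ → α := fun t => t.1.2.2
  let Cc : τ → Set α := fun t => t.1.1
  let Dd : τ → Set α := fun t => t.1.2.1
  have hCc : ∀ t, M.IsCircuit (Cc t) := fun t => t.2.1
  have hDd : ∀ t, M.IsCocircuit (Dd t) := fun t => t.2.2.1
  have hDc : ∀ t, #(Dd t) < lam := fun t => t.2.2.2.1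
  have hCD : ∀ t, Cc t ∩ Dd t = {k, x t} := fun t => t.2.2.2.2.1
  -- witnesses
  have hw : ∀ C Z : Set α, ∃ D' : Set α, (M.IsCocircuit D' ∨ D' = ∅) ∧ #D' ≤ κ ∧
      ((∃ D', M.IsCocircuit D' ∧ #D' ≤ κ ∧ C ∩ D' = Z) → M.IsCocircuit D' ∧ C ∩ D' = Z) := by
    intro C Z
    by_cases h : ∃ D', M.IsCocircuit D' ∧ #D' ≤ κ ∧ C ∩ D' = Z
    · obtain ⟨D', h1, h2, h3⟩ := h
      exact ⟨D', Or.inl h1, h2, fun _ => ⟨h1, h3⟩⟩
    · exact ⟨∅, Or.inr rfl, by simp, fun h' => absurd h' h⟩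
  choose w hw1 hw2 hw3 using hw
  have hwE : ∀ C Z, w C Z ⊆ M.E := by
    intro C Z
    rcases hw1 C Z with h | h
    · exact h.subset_ground
    · rw [h]; exact empty_subset _
  let W : τ → Set α := fun t => (Cc t ∪ Dd t) ∪ ⋃ Z ∈ traces M (Cc t), w (Cc t) Z
  have hWc : ∀ t, #(W t) < lam := by
    intro t
    refine mk_union_lt hlam.aleph0_le (mk_union_lt hlam.aleph0_le ((hC _ (hCc t)).trans hlt)
      (hDc t)) ?_
    exact mk_biUnion_lt_of_isRegular hlam (hle.2 (hT _ (hCc t))) _ fun Z _ => hle.2 (hw2 _ Z)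
  have hex : ∀ Y : Set α, #Y < lam → ∃ t, x t ∉ Y := by
    intro Y hY
    have h1 : #(Y ∪ {k} : Set α) < lam :=
      mk_union_lt hlam.aleph0_le hY (by simpa using one_lt_aleph0.trans_le hlam.aleph0_le)
    have h2 : ¬ Nb M lam k ⊆ Y ∪ {k} := fun h =>
      absurd (hcon.trans (mk_le_mk_of_subset h)) (not_le.2 h1)
    obtain ⟨y, hy, hyn⟩ := not_subset.1 h2
    obtain ⟨D, hD, hDc, hkD, hyD⟩ := mem_Nb.1 hy
    have hky : k ≠ y := fun h => hyn (Or.inr h.symm)
    obtain ⟨C, hC', hCD⟩ := exists_isCircuit_inter_eq_pair hD hkD hyD hky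
    exact ⟨⟨(C, D, y), hC', hD, hDc, hCD, hky⟩, fun h => hyn (Or.inl h)⟩
  obtain ⟨K₁, hkK, hKc, _, t, ht⟩ := exists_seq x Cc W hκ hlam hlt
    (fun t => hC _ (hCc t)) hWc (fun _ => True) (fun K hK => ⟨K, Subset.rfl, hK, trivial⟩) hex {k}
    (by simpa using one_lt_aleph0.trans_le hlam.aleph0_le)
  set K : Set α := K₁ ∩ M.E with hKdef
  have hKE : K ⊆ M.E := inter_subset_right
  have hkx : ∀ s, k ∈ Cc s ∧ k ∈ Dd s ∧ x s ∈ Cc s ∧ x s ∈ Dd s := by
    intro s
    have h1 : k ∈ Cc s ∩ Dd s := by rw [hCD s]; exact Or.inl rfl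
    have h2 : x s ∈ Cc s ∩ Dd s := by rw [hCD s]; exact Or.inr rfl
    exact ⟨h1.1, h1.2, h2.1, h2.2⟩
  let ι := lam.ord.ToType
  let V : ι → Set α := fun j => Cc (t j) \ K₁
  have hVdis : ∀ i j : ι, i < j → Disjoint (W (t i)) (V j) := by
    intro i j hij
    rw [disjoint_left]
    rintro y hyW ⟨hyU, hyK⟩
    exact hyK ((ht j).2 ⟨hyU, Or.inr (mem_biUnion (show i ∈ Iio j from hij) hyW)⟩)
  have hVW : ∀ i, V i ⊆ W (t i) := fun i =>
    sdiff_subset.trans (subset_union_left.trans subset_union_left)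
  have hxK : ∀ j, x (t j) ∉ K₁ := fun j h => (ht j).1 (Or.inl h)
  have hCE : ∀ s, Cc s ⊆ M.E := fun s => (hCc s).subset_ground
  refine final_strong (ι := ι) hκ hC hKE (hle.1 ((mk_le_mk_of_subset inter_subset_left).trans_lt hKc))
    V (fun j => Dd (t j)) (fun j => W (t j)) (fun j => x (t j)) ?_ ?_ ?_ ?_ (fun j => hDd _) ?_ ?_
    (fun j => hle.1 (hWc _)) ?_ hVdis ?_ ?_
  · exact fun j => sdiff_subset.trans (hCE _)
  · intro i j hij
    rcases lt_or_gt_of_ne hij with h | h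
    · exact (hVdis i j h).mono_left (hVW i)
    · exact ((hVdis j i h).mono_left (hVW j)).symm
  · exact fun j => ⟨(hkx (t j)).2.2.1, hxK j⟩
  · intro j
    refine M.closure_subset_closure ?_
      ((hCc (t j)).mem_closure_sdiff_singleton_of_mem (hkx (t j)).2.2.1)
    rintro y ⟨hy, hyx⟩
    by_cases hyK : y ∈ K₁
    · exact Or.inl ⟨hyK, hCE _ hy⟩
    · exact Or.inr ⟨⟨hy, hyK⟩, hyx⟩
  · exact fun j => subset_union_right.trans subset_union_left
  · intro j
    apply Subset.antisymm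
    · rintro y ⟨hyD, hyC, hyK⟩
      have hyCD : y ∈ Cc (t j) ∩ Dd (t j) := ⟨hyC, hyD⟩
      rw [hCD (t j)] at hyCD
      rcases hyCD with h | h
      · exact absurd (hkK rfl) (h ▸ hyK)
      · exact h
    · rintro y rfl
      exact ⟨(hkx (t j)).2.2.2, (hkx (t j)).2.2.1, hxK j⟩
  · intro j
    refine union_subset (union_subset (hCE _) (hDd _).subset_ground) ?_
    exact iUnion₂_subset fun Z _ => hwE _ Z
  · rintro j Z hZ ⟨D', hD', hD'c, z, hz⟩
    obtain ⟨h1, h2⟩ := hw3 (Cc (t j)) (Cc (t j) ∩ D') ⟨D', hD', hD'c, rfl⟩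
    have hmem : Cc (t j) ∩ D' ∈ traces M (Cc (t j)) := ⟨D', hD', rfl⟩
    refine ⟨w (Cc (t j)) (Cc (t j) ∩ D'), h1, ?_, z, ?_⟩
    · exact (subset_biUnion_of_mem (u := fun Z => w (Cc (t j)) Z) hmem).trans subset_union_right
    · rw [← hz]
      have hZC : Z ⊆ Cc (t j) := hZ.trans sdiff_subset
      ext y
      constructor
      · rintro ⟨hyZ, hyw⟩
        have : y ∈ Cc (t j) ∩ D' := h2 ▸ ⟨hZC hyZ, hyw⟩
        exact ⟨hyZ, this.2⟩
      · rintro ⟨hyZ, hyD⟩
        have : y ∈ Cc (t j) ∩ w (Cc (t j)) (Cc (t j) ∩ D') := by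
          rw [h2]; exact ⟨hZC hyZ, hyD⟩
        exact ⟨hyZ, this.2⟩
  · rw [mk_ord_toType]; exact hlt

lemma good_of_few {κ : Cardinal.{u}} (hκ : ℵ₀ ≤ κ) (hC : ∀ C, M.IsCircuit C → #C < κ)
    (hT : ∀ C, M.IsCircuit C → #(traces M C) ≤ κ) : Good κ M where
  circ := hC
  nb X lam hlam hlt k := by
    have hCX : ∀ C, (M ＼ X).IsCircuit C → #C < κ := fun C h => hC C (delete_isCircuit_iff.1 h).1
    rcases (Order.succ_le_of_lt hlt).eq_or_lt with h | h
    · subst h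
      refine mk_Nb_lt_of_few hκ hCX (fun C h => ?_) k
      have h' := delete_isCircuit_iff.1 h
      exact (mk_le_mk_of_subset (traces_delete h'.2)).trans (hT C h'.1)
    · exact mk_Nb_lt_of_isRegular (isRegular_succ hκ) hlam h
        (fun C hC' => (hCX C hC').trans (Order.lt_succ κ)) k

lemma mk_traces_le_of_strong {κ : Cardinal.{u}} (h2 : ∀ μ < κ, 2 ^ μ ≤ κ)
    (hC : ∀ C, M.IsCircuit C → #C < κ) (C : Set α) (hCc : M.IsCircuit C) :
    #(traces M C) ≤ κ := by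
  have h : traces M C ⊆ 𝒫 C := by
    rintro Z ⟨D, _, rfl⟩
    exact inter_subset_left
  refine (mk_le_mk_of_subset h).trans ?_
  rw [mk_powerset]
  exact h2 _ (hC C hCc)

lemma mk_traces_le_of_finite {κ : Cardinal.{u}} (hκ : ℵ₀ ≤ κ)
    (hC : ∀ C, M.IsCircuit C → #C < κ)
    (hfin : ∀ C D, M.IsCircuit C → M.IsCocircuit D → (C ∩ D).Finite) (C : Set α)
    (hCc : M.IsCircuit C) : #(traces M C) ≤ κ := by
  classical
  have hsurj : traces M C ⊆ range (fun s : Finset C => ((↑) : C → α) '' (s : Set C)) := by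
    rintro Z ⟨D, hD, rfl⟩
    have hf : ((↑) ⁻¹' (C ∩ D) : Set C).Finite :=
      (hfin C D hCc hD).preimage (Subtype.val_injective.injOn)
    refine ⟨hf.toFinset, ?_⟩
    ext y
    simp only [Set.Finite.coe_toFinset, mem_image, mem_preimage, Subtype.exists,
      exists_and_right, exists_eq_right]
    constructor
    · rintro ⟨_, h⟩; exact h
    · intro h; exact ⟨h.1, h⟩
  refine (mk_le_mk_of_subset hsurj).trans (mk_range_le.trans ?_)
  rcases finite_or_infinite C with h | h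
  · exact ((lt_aleph0_of_finite (Finset C)).le).trans hκ
  · rw [mk_finset_of_infinite]
    exact (hC C hCc).le

end Pool.Hhelper49.Kappa
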